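import Pool.Agent.H599R2.OW.Core
import Pool.Agent.H599R2.PH.Defs2

/-!
# Parity on average, for circuits over functions with good approximations
-/

namespace H599.OW

open Finset H599.QB H599.PH

/-- good approximations at all levels -/
def App {V : Type} [Fintype V] [DecidableEq V] (D : ℕ) (g : (V → Bool) → Bool) : Prop :=
  ∀ j, ∃ p ∈ Deg V (12780 * (j + 1) * D), (∀ x, |p x| ≤ 1) ∧
    ∀ x, |p x - ind g x| ≤ 1 / 2 ^ (j + 1)

/-- substitutions all of whose coordinates have degree at most one -/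
def CoordV {V V' : Type} [Fintype V] [DecidableEq V] (τ : (V → Bool) → (V' → Bool)) : Prop :=
  ∀ v, (fun z => sg (τ z v)) ∈ Deg V 1

theorem subst_coordV {V V' : Type} [Fintype V] [DecidableEq V] [Fintype V'] [DecidableEq V']
    {D : ℕ} {τ : (V → Bool) → (V' → Bool)} (hτ : CoordV τ)
    {P : (V' → Bool) → ℝ} (hP : P ∈ Deg V' D) : (fun z => P (τ z)) ∈ Deg V D := by
  induction hP using Submodule.span_induction with
  | mem f hf =>
    obtain ⟨S, hS, rfl⟩ := hf
    have e : (fun z => chi S (τ z)) = fun z => ∏ g ∈ S, sg (τ z g) := rfl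
    rw [e]
    have := prod_mem S 1 (fun g z => sg (τ z g)) fun g _ => hτ g
    rw [mul_one] at this
    exact Deg.mono hS this
  | zero => exact Submodule.zero_mem _
  | add f g _ _ ihf ihg => exact Submodule.add_mem _ ihf ihg
  | smul a f _ ihf => exact Submodule.smul_mem _ a ihf

theorem App.comp {V V' : Type} [Fintype V] [DecidableEq V] [Fintype V'] [DecidableEq V']
    {D : ℕ} {τ : (V → Bool) → (V' → Bool)} (hτ : CoordV τ) {g : (V' → Bool) → Bool}
    (hg : App D g) : App D fun z => g (τ z) := by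
  intro j
  obtain ⟨p, hp, h1, h2⟩ := hg j
  exact ⟨fun z => p (τ z), subst_coordV hτ hp, fun x => h1 _, fun x => h2 _⟩

theorem Circ.comp {X Y : Type} (f : X → Y) {w k : ℕ} {F0 F : Fin w → Y → Bool}
    (hF : F ∈ Circ (Set.range F0) w k) :
    (fun i x => F i (f x)) ∈ Circ (Set.range fun i x => F0 i (f x)) w k := by
  induction k generalizing F with
  | zero =>
    intro i
    obtain ⟨j, hj⟩ := hF i
    exact ⟨j, funext fun x => congrFun hj (f x)⟩
  | succ k ih =>
    obtain ⟨G, hG, hg⟩ := hF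
    refine ⟨fun i x => G i (f x), ih hG, fun i => ?_⟩
    obtain ⟨S, hS⟩ := hg i
    refine ⟨S, ?_⟩
    rcases hS with h | h | ⟨r, h⟩
    · exact Or.inl fun x => h (f x)
    · exact Or.inr (Or.inl fun x => h (f x))
    · exact Or.inr (Or.inr ⟨r, fun x => h (f x)⟩)

theorem smol_count {D m g : ℕ} (h : (3 * g * D) ^ 2 ≤ 2 * m + 1) :
    3 * g * ∑ i ∈ Finset.range (m + D + 1), (2 * m + 1).choose i ≤ (3 * g + 2) * 4 ^ m := by
  set C := (2 * m + 1).choose m with hC
  have h1 : ∑ i ∈ Finset.range (m + D + 1), (2 * m + 1).choose i ≤ 4 ^ m + D * C := by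
    have h2 : m + D + 1 = (m + 1) + D := by ring
    rw [h2, Finset.sum_range_add, Nat.sum_range_choose_halfway]
    refine Nat.add_le_add_left ?_ _
    calc ∑ x ∈ Finset.range D, (2 * m + 1).choose (m + 1 + x)
        ≤ ∑ _x ∈ Finset.range D, C := by
          refine Finset.sum_le_sum fun x _ => ?_
          have := Nat.choose_le_middle (m + 1 + x) (2 * m + 1)
          have e : (2 * m + 1) / 2 = m := by omega
          rw [e] at this
          exact this
      _ = D * C := by simp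
  have h3 : (m + 1).centralBinom = 2 * C := by
    have h4 : (m + 1).centralBinom = (2 * m + 1 + 1).choose (m + 1) := by
      rw [Nat.centralBinom]; congr 1
    rw [h4, Nat.choose_succ_succ]
    have h5 : (2 * m + 1).choose (m + 1) = C := by
      rw [hC]
      exact Nat.choose_symm_half m
    rw [h5]
    change C + C = _
    ring
  have h6 := central_sq (m + 1)
  rw [h3] at h6
  have h7 : (2 * m + 3) * C ^ 2 ≤ 4 * 16 ^ m := by
    have : 4 * ((2 * m + 3) * C ^ 2) ≤ 4 * (4 * 16 ^ m) := by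
      calc 4 * ((2 * m + 3) * C ^ 2) = (2 * (m + 1) + 1) * (2 * C) ^ 2 := by ring
        _ ≤ 16 ^ (m + 1) := h6
        _ = _ := by ring
    omega
  have h8 : 3 * g * D * C ≤ 2 * 4 ^ m := by
    have h16 : (4 : ℕ) ^ m * 4 ^ m = 16 ^ m := by rw [← mul_pow]; norm_num
    refine (Nat.pow_le_pow_iff_left (n := 2) two_ne_zero).1 ?_
    have h9 : (2 * m + 3) * (3 * g * D * C) ^ 2 ≤ (2 * m + 3) * (2 * 4 ^ m) ^ 2 := by
      calc (2 * m + 3) * (3 * g * D * C) ^ 2
          = (3 * g * D) ^ 2 * ((2 * m + 3) * C ^ 2) := by ring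
        _ ≤ (3 * g * D) ^ 2 * (4 * 16 ^ m) := Nat.mul_le_mul_left _ h7
        _ ≤ (2 * m + 3) * (4 * 16 ^ m) := Nat.mul_le_mul_right _ (by omega)
        _ = (2 * m + 3) * (4 * (4 ^ m * 4 ^ m)) := by rw [h16]
        _ = _ := by ring
    exact Nat.le_of_mul_le_mul_left h9 (by omega)
  calc _ ≤ 3 * g * (4 ^ m + D * C) := Nat.mul_le_mul_left _ h1
    _ = 3 * g * 4 ^ m + 3 * g * D * C := by ring
    _ ≤ 3 * g * 4 ^ m + 2 * 4 ^ m := Nat.add_le_add_left h8 _
    _ = _ := by ring

theorem chi3_odd {W : Type} [Fintype W] [DecidableEq W] (u : W → Bool) :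
    chi3 Finset.univ u = 1 + i3 (Odd (Finset.univ.filter fun w => u w = true).card) := by
  rw [chi3_card]
  by_cases h : Odd (Finset.univ.filter fun w => u w = true).card
  · rw [h.neg_one_pow, i3_true h]; decide
  · rw [(Nat.not_odd_iff_even.1 h).neg_one_pow, i3_false h]; decide

open Classical in
/-- Average-case hardness of parity. -/
theorem parity_avg {l k h g D w : ℕ} (hh : 1 ≤ h) (hg1 : 1 ≤ g) (hgh : g ≤ 2 ^ h) (hD : 1 ≤ D)
    (hw : w ≤ 2 ^ h)
    (hl : 54 * 10 ^ 6 * D * g ^ 2 * h ^ 2 * (8 * (h + k)) ^ (2 * k) ≤ l)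
    {F0 F : Fin w → (Fin l → Bool) → Bool} (hF0 : ∀ i, App D (F0 i))
    (hF : F ∈ Circ (Set.range F0) w k) (i₀ : Fin w) :
    ((Finset.univ.filter fun x => F i₀ x = true ↔ OddPar l x).card : ℝ)
      ≤ (1 / 2 + 1 / g) * 2 ^ l := by
  set t := 2 * h with ht
  set r := 4 * h + k with hr
  set d := (2 * r) ^ k * t with hd
  set m := 5 * (g * d) ^ 2 with hm
  set M := 2 * m + 1 with hM
  have hr1 : 1 ≤ r := by omega
  have hd1 : 1 ≤ d := by
    have h1 : 0 < (2 * r) ^ k := by positivity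
    exact Nat.mul_pos h1 (by omega)
  have hgd : 1 ≤ g * d := Nat.mul_pos hg1 hd1
  have hdle : d ≤ 2 * h * (8 * (h + k)) ^ k := by
    have h1 : (2 * r) ^ k ≤ (8 * (h + k)) ^ k := Nat.pow_le_pow_left (by omega) k
    calc d = 2 * h * (2 * r) ^ k := by rw [hd, ht]; ring
      _ ≤ _ := Nat.mul_le_mul_left _ h1
  have hN : 1226880 * D * M ≤ Fintype.card (Fin l) := by
    rw [Fintype.card_fin]
    refine le_trans ?_ hl
    have h1 : M ≤ 11 * (g * d) ^ 2 := by
      rw [hM, hm]; nlinarith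
    have h2 : (g * d) ^ 2 ≤ 4 * g ^ 2 * h ^ 2 * (8 * (h + k)) ^ (2 * k) := by
      calc (g * d) ^ 2 ≤ (g * (2 * h * (8 * (h + k)) ^ k)) ^ 2 :=
            Nat.pow_le_pow_left (Nat.mul_le_mul_left _ hdle) 2
        _ = _ := by rw [mul_pow, mul_pow, ← pow_mul, mul_comm k 2]; ring
    calc 1226880 * D * M ≤ 1226880 * D * (11 * (4 * g ^ 2 * h ^ 2 * (8 * (h + k)) ^ (2 * k))) :=
          Nat.mul_le_mul_left _ (h1.trans (Nat.mul_le_mul_left _ h2))
      _ = 53982720 * (D * g ^ 2 * h ^ 2 * (8 * (h + k)) ^ (2 * k)) := by ring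
      _ ≤ 54 * 10 ^ 6 * (D * g ^ 2 * h ^ 2 * (8 * (h + k)) ^ (2 * k)) :=
          Nat.mul_le_mul_right _ (by norm_num)
      _ = _ := by ring
  obtain ⟨S₀, hS, hbad⟩ := restrict_avg F0 (t := t) (T := D) (M := M)
    (Nat.succ_pos _) hD (fun i j _ => hF0 i j) hN
  rw [Fintype.card_fin, Fintype.card_fin] at hbad
  have hWcard : Fintype.card S₀ = 2 * m + 1 := by rw [Fintype.card_coe, hS]
  set cub : (Fin l → Bool) → (S₀ → Bool) → (Fin l → Bool) := fun x u =>
    QB.flip ((Finset.univ.filter fun w => u w = true).image Subtype.val) x with hcub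
  set Z : Finset (Fin l → Bool) := Finset.univ.filter fun y => F i₀ y = true ↔ OddPar l y with hZ
  have hflip : ∀ u : S₀ → Bool,
      (Finset.univ.filter fun x : Fin l → Bool => F i₀ (cub x u) = true ↔
        OddPar l (cub x u)).card = Z.card := by
    intro u
    refine Finset.card_bij (fun x _ => cub x u) ?_ ?_ ?_
    · intro x hx
      exact Finset.mem_filter.2 ⟨Finset.mem_univ _, (Finset.mem_filter.1 hx).2⟩
    · intro x _ y _ hxy
      funext v
      have h1 := congrFun hxy v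
      simp only [hcub, QB.flip] at h1
      split_ifs at h1
      · exact Bool.not_inj h1
      · exact h1
    · intro y hy
      have h2 : cub (cub y u) u = y := by
        funext v
        simp only [hcub, QB.flip]
        split_ifs <;> simp
      refine ⟨cub y u, Finset.mem_filter.2 ⟨Finset.mem_univ _, ?_⟩, h2⟩
      rw [h2]
      exact (Finset.mem_filter.1 hy).2
  have hdouble : 2 ^ M * Z.card = ∑ x : Fin l → Bool,
      (Finset.univ.filter fun u : S₀ → Bool => F i₀ (cub x u) = true ↔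
        OddPar l (cub x u)).card := by
    have h1 : ∑ x : Fin l → Bool,
        (Finset.univ.filter fun u : S₀ → Bool => F i₀ (cub x u) = true ↔
          OddPar l (cub x u)).card
        = ∑ u : S₀ → Bool,
          (Finset.univ.filter fun x : Fin l → Bool => F i₀ (cub x u) = true ↔
            OddPar l (cub x u)).card := by
      simp only [Finset.card_filter]
      exact Finset.sum_comm
    rw [h1, Finset.sum_congr rfl fun u _ => hflip u, Finset.sum_const, Finset.card_univ,
      Fintype.card_fun, hWcard, Fintype.card_bool, smul_eq_mul]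
  have hR8 : (1 : ℝ) ≤ 8 ^ h := one_le_pow₀ (by norm_num)
  have hgR : (0 : ℝ) < g := by exact_mod_cast hg1
  set e8 : ℝ := 1 / 8 ^ h with he8
  have he8pos : 0 < e8 := by positivity
  have hgood : ∀ x ∉ badPts F0 t S₀,
      ((Finset.univ.filter fun u : S₀ → Bool => F i₀ (cub x u) = true ↔
        OddPar l (cub x u)).card : ℝ) ≤ 2 ^ M * (1 / 2 + 1 / (3 * g) + e8) := by
    intro x hx
    have hx' : ∀ i, ∀ S ⊆ S₀, t < S.card → alt S (ind (F0 i)) x = 0 := by
      intro i S h1 h2
      by_contra h3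
      exact hx (mem_badPts.2 ⟨i, S, h1, h2, h3⟩)
    obtain ⟨q, hq, E, hE, hEc⟩ := circ_approx (W := S₀) (t := t) hr1 F0 (cub x)
      (fun i => sub_mem' (hx' i) Subtype.val Subtype.val_injective fun w => w.2) k F hF
    rw [hWcard] at hEc
    set A' : Finset (S₀ → Bool) := Finset.univ.filter fun u =>
      (F i₀ (cub x u) = true ↔ OddPar l (cub x u)) ∧ u ∉ E with hA'
    have hsub : (Finset.univ.filter fun u : S₀ → Bool => F i₀ (cub x u) = true ↔
        OddPar l (cub x u)) ⊆ E ∪ A' := by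
      intro u hu
      by_cases huE : u ∈ E
      · exact Finset.mem_union_left _ huE
      · exact Finset.mem_union_right _ (Finset.mem_filter.2 ⟨Finset.mem_univ _,
          (Finset.mem_filter.1 hu).2, huE⟩)
    have hQ : (fun u => chi3 Finset.univ x * (1 + q i₀ u)) ∈ P3 S₀ d :=
      Submodule.smul_mem _ _ (Submodule.add_mem _ (const3_mem 1 _) (hq i₀))
    have hval : ∀ u ∈ A', chi3 Finset.univ x * (1 + q i₀ u) = chi3 Finset.univ u := by
      intro u hu
      obtain ⟨_, h1, h2⟩ := Finset.mem_filter.1 hu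
      have h3 : chi3 Finset.univ (cub x u) = chi3 Finset.univ x * chi3 Finset.univ u := by
        rw [hcub]
        beta_reduce
        rw [chi3_flip, Finset.univ_inter, Finset.card_image_of_injective _ Subtype.val_injective,
          ← chi3_card]
      have h4 : 1 + q i₀ u = chi3 Finset.univ (cub x u) := by
        rw [hE u h2 i₀, chi3_odd, i3_congr h1]
        rfl
      rw [h4, h3, ← mul_assoc]
      have h5 : chi3 Finset.univ x * chi3 Finset.univ x = 1 := by
        rw [chi3_mul, symmDiff_self]; simp [chi3]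
      rw [h5, one_mul]
    have hsm := smolensky hQ A' hval
    rw [hWcard] at hsm
    have hdiv : (2 * m + 1) / 2 = m := by omega
    rw [hdiv] at hsm
    have hcnt := smol_count (D := d) (m := m) (g := g) (by rw [hm]; nlinarith)
    have hA'R : (A'.card : ℝ) ≤ 2 ^ M * (1 / 2 + 1 / (3 * g)) := by
      have h1 : 3 * g * A'.card ≤ (3 * g + 2) * 4 ^ m := (Nat.mul_le_mul_left _ hsm).trans hcnt
      have h2 : (3 * g * A'.card : ℝ) ≤ (3 * g + 2) * 4 ^ m := by exact_mod_cast h1
      have h3 : (2 : ℝ) ^ M = 2 * 4 ^ m := by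
        rw [hM, pow_succ, pow_mul]; norm_num; ring
      have h4 : (2 : ℝ) ^ M * (1 / 2 + 1 / (3 * g)) = (3 * g + 2) * 4 ^ m / (3 * g) := by
        rw [h3]; field_simp
      rw [h4, le_div_iff₀ (by positivity)]
      linarith
    have hER : (E.card : ℝ) ≤ 2 ^ M * e8 := by
      have h1 : k * w ≤ 2 ^ k * 2 ^ h := Nat.mul_le_mul (Nat.lt_two_pow_self).le hw
      have h2 := hEc.trans (Nat.mul_le_mul_right _ h1)
      have h3 : (2 : ℕ) ^ r = 2 ^ k * 2 ^ h * 8 ^ h := by
        rw [hr, show (8 : ℕ) = 2 ^ 3 from rfl, ← pow_mul, ← pow_add, ← pow_add]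
        congr 1
        ring
      rw [h3] at h2
      have h4 : 0 < 2 ^ k * 2 ^ h := by positivity
      have h5 : E.card * 8 ^ h ≤ 2 ^ M := by
        refine Nat.le_of_mul_le_mul_left ?_ h4
        calc 2 ^ k * 2 ^ h * (E.card * 8 ^ h) = E.card * (2 ^ k * 2 ^ h * 8 ^ h) := by ring
          _ ≤ _ := h2
      have h6 : (E.card : ℝ) * 8 ^ h ≤ 2 ^ M := by exact_mod_cast h5
      rw [he8, mul_one_div, le_div_iff₀ (by positivity)]
      exact h6
    have hU : ((Finset.univ.filter fun u : S₀ → Bool => F i₀ (cub x u) = true ↔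
        OddPar l (cub x u)).card : ℝ) ≤ E.card + A'.card := by
      exact_mod_cast (Finset.card_le_card hsub).trans (Finset.card_union_le _ _)
    calc _ ≤ (E.card : ℝ) + A'.card := hU
      _ ≤ 2 ^ M * e8 + 2 ^ M * (1 / 2 + 1 / (3 * g)) := add_le_add hER hA'R
      _ = _ := by ring
  have hbad' : ((badPts F0 t S₀).card : ℝ) ≤ 4 / 3 * e8 * 2 ^ l := by
    have h1 : (4 : ℕ) ^ t = 8 ^ h * 2 ^ h := by
      rw [← mul_pow, ht, pow_mul]; norm_num
    rw [h1] at hbad
    have h2 : 4 * w * 2 ^ l ≤ 4 * 2 ^ h * 2 ^ l := by gcongr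
    have h3 : 2 ^ h * (3 * (8 ^ h * (badPts F0 t S₀).card)) ≤ 2 ^ h * (4 * 2 ^ l) := by
      calc _ = 3 * (8 ^ h * 2 ^ h) * (badPts F0 t S₀).card := by ring
        _ ≤ 4 * 2 ^ h * 2 ^ l := hbad.trans h2
        _ = _ := by ring
    have h4 := Nat.le_of_mul_le_mul_left h3 (by positivity)
    have h5 : (3 : ℝ) * (8 ^ h * (badPts F0 t S₀).card) ≤ 4 * 2 ^ l := by exact_mod_cast h4
    have h6 : 4 / 3 * e8 * 2 ^ l = (4 * 2 ^ l) / (3 * 8 ^ h) := by
      rw [he8]; field_simp
    rw [h6, le_div_iff₀ (by positivity)]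
    linarith
  have hpM : (0 : ℝ) < 2 ^ M := by positivity
  have hpl : (0 : ℝ) < 2 ^ l := by positivity
  have hfin : (2 : ℝ) ^ M * Z.card ≤
      2 ^ M * (2 ^ l * (1 / 2 + 1 / (3 * g) + e8) + (badPts F0 t S₀).card) := by
    have h1 : ((2 ^ M * Z.card : ℕ) : ℝ) = ∑ x : Fin l → Bool,
      ((Finset.univ.filter fun u : S₀ → Bool => F i₀ (cub x u) = true ↔
        OddPar l (cub x u)).card : ℝ) := by
      rw [hdouble]; push_cast; rfl
    have h2 : (2 : ℝ) ^ M * Z.card = ((2 ^ M * Z.card : ℕ) : ℝ) := by push_cast; ring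
    rw [h2, h1]
    calc _ ≤ ∑ x : Fin l → Bool, (2 ^ M * (1 / 2 + 1 / (3 * g) + e8) +
          if x ∈ badPts F0 t S₀ then (2 : ℝ) ^ M else 0) := by
          refine Finset.sum_le_sum fun x _ => ?_
          by_cases hx : x ∈ badPts F0 t S₀
          · rw [if_pos hx]
            refine le_trans ?_ (le_add_of_nonneg_left (by positivity))
            have h3 : (Finset.univ.filter fun u : S₀ → Bool => F i₀ (cub x u) = true ↔
                OddPar l (cub x u)).card ≤ 2 ^ M := by
              refine (Finset.card_le_univ _).trans (le_of_eq ?_)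
              rw [Fintype.card_fun, hWcard, Fintype.card_bool]
            exact_mod_cast h3
          · rw [if_neg hx, add_zero]
            exact hgood x hx
      _ = _ := by
          rw [Finset.sum_add_distrib, Finset.sum_const, Finset.card_univ, Fintype.card_fun,
            Fintype.card_fin, Fintype.card_bool, nsmul_eq_mul, Finset.sum_ite_mem,
            Finset.univ_inter, Finset.sum_const, nsmul_eq_mul]
          push_cast
          ring
  have hZR := le_of_mul_le_mul_left hfin hpM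
  have h7 : 7 / 3 * e8 ≤ 2 / 3 * (1 / g) := by
    have h8 : (8 : ℝ) ^ h = 4 ^ h * 2 ^ h := by rw [← mul_pow]; norm_num
    have h9 : (4 : ℝ) ≤ 4 ^ h := by
      calc (4 : ℝ) = 4 ^ 1 := by norm_num
        _ ≤ _ := pow_le_pow_right₀ (by norm_num) hh
    have h10 : (g : ℝ) ≤ 2 ^ h := by exact_mod_cast hgh
    have h11 : 4 * (g : ℝ) ≤ 8 ^ h := by
      rw [h8]
      exact mul_le_mul h9 h10 hgR.le (by positivity)
    have h12 : e8 ≤ 1 / (4 * g) := by
      rw [he8]
      exact one_div_le_one_div_of_le (by positivity) h11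
    have h13 : (1 : ℝ) / (4 * g) = 1 / 4 * (1 / g) := by field_simp
    rw [h13] at h12
    have : (0 : ℝ) < 1 / g := by positivity
    linarith
  have h14 : (1 : ℝ) / (3 * g) = 1 / 3 * (1 / g) := by field_simp
  rw [h14] at hZR
  calc (Z.card : ℝ) ≤ 2 ^ l * (1 / 2 + 1 / 3 * (1 / g) + e8) + (badPts F0 t S₀).card := hZR
    _ ≤ 2 ^ l * (1 / 2 + 1 / 3 * (1 / g) + e8) + 4 / 3 * e8 * 2 ^ l :=
        add_le_add_right hbad' _
    _ = 2 ^ l * (1 / 2 + 1 / 3 * (1 / g) + 7 / 3 * e8) := by ring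
    _ ≤ 2 ^ l * (1 / 2 + 1 / 3 * (1 / g) + 2 / 3 * (1 / g)) := by
        refine mul_le_mul_of_nonneg_left ?_ hpl.le
        linarith
    _ = _ := by ring

end H599.OW
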