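import Pool.Agent.H599R2.OW.SatDefs
import Pool.Agent.H599R2.OW.Par
import Pool.Agent.H599R2.PH.Trade

/-!
# Parity reduces to satisfiability of 2-CNF formulas by a projection of linear size
-/

namespace H599.OW

open Finset H599.QB H599.PH
open Pool.Agent.H564R2.QF (Fml)

theorem LeafV.app {V : Type} [Fintype V] [DecidableEq V] {D : ℕ} (hD : 1 ≤ D)
    {g : (V → Bool) → Bool} (hg : g ∈ LeafV V D) : App D g := by
  intro j
  rcases hg with hg | ⟨φ, hφ, hg⟩
  · obtain ⟨p, hp, h1, h2⟩ := hg.amp j
    refine ⟨p, Deg.mono (Nat.mul_le_mul_right _ (by omega)) hp, h1, h2⟩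
  · set e := Fintype.equivFin V
    refine Good.approx (s := D ^ 2) ⟨Fintype.card V, subG (fun v => .var (e v)) φ,
      fun x i => x (e.symm i), fun v => ?_, (subG_size _ (fun v => le_rfl) φ).trans hφ,
      fun x => ?_⟩ hD ?_
    · have e' : (fun z : V → Bool => sg (z (e.symm v))) = chi {e.symm v} := by
        funext z; simp [chi]
      rw [e']
      exact chi_mem (by simp)
    · rw [hg, subG_eval]
      congr 1
      funext v
      change x v = x (e.symm (e v))
      rw [e.symm_apply_apply]
    · exact Nat.le_mul_of_pos_left _ (Nat.succ_pos j)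

/-- sum of the first `v` bits -/
def pre {l : ℕ} (x : Fin l → Bool) : ℕ → Bool
  | 0 => false
  | v + 1 => if h : v < l then xor (pre x v) (x ⟨v, h⟩) else pre x v

theorem pre_odd {l : ℕ} (x : Fin l → Bool) (v : ℕ) (hv : v ≤ l) :
    pre x v = true ↔ Odd (Finset.univ.filter fun i : Fin l => i.1 < v ∧ x i = true).card := by
  induction v with
  | zero => simp [pre]
  | succ v ih =>
    have hvl : v < l := hv
    have ih := ih hvl.le
    have h1 : (Finset.univ.filter fun i : Fin l => i.1 < v + 1 ∧ x i = true)
        = (Finset.univ.filter fun i : Fin l => i.1 < v ∧ x i = true) ∪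
          (if x ⟨v, hvl⟩ = true then {⟨v, hvl⟩} else ∅) := by
      ext i
      simp only [Finset.mem_filter, Finset.mem_univ, true_and, Finset.mem_union]
      constructor
      · rintro ⟨h2, h3⟩
        rcases Nat.lt_succ_iff_lt_or_eq.1 h2 with h4 | h4
        · exact Or.inl ⟨h4, h3⟩
        · have : i = ⟨v, hvl⟩ := Fin.ext h4
          subst this
          rw [if_pos h3]
          exact Or.inr (Finset.mem_singleton_self _)
      · rintro (⟨h2, h3⟩ | h2)
        · exact ⟨by omega, h3⟩
        · split_ifs at h2 with h3
          · rw [Finset.mem_singleton] at h2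
            subst h2
            exact ⟨Nat.lt_succ_self v, h3⟩
          · exact absurd h2 (Finset.notMem_empty _)
    have hdis : Disjoint (Finset.univ.filter fun i : Fin l => i.1 < v ∧ x i = true)
        (if x ⟨v, hvl⟩ = true then {⟨v, hvl⟩} else ∅) := by
      split_ifs
      · rw [Finset.disjoint_singleton_right, Finset.mem_filter]
        rintro ⟨_, h, _⟩
        exact lt_irrefl _ h
      · exact Finset.disjoint_empty_right _
    rw [h1, Finset.card_union_of_disjoint hdis]
    have h2 : pre x (v + 1) = xor (pre x v) (x ⟨v, hvl⟩) := by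
      rw [pre, dif_pos hvl]
    rw [h2]
    cases hx : x ⟨v, hvl⟩
    · simpa using ih
    · rw [if_pos rfl, Finset.card_singleton, Nat.odd_add_one, ← ih]
      cases pre x v <;> simp

theorem pre_all {l : ℕ} (x : Fin l → Bool) : pre x l = true ↔ OddPar l x := by
  rw [pre_odd x l le_rfl]
  unfold OddPar
  have : (Finset.univ.filter fun i : Fin l => i.1 < l ∧ x i = true)
      = Finset.univ.filter fun i : Fin l => x i = true := by
    ext i
    simp [i.2]
  rw [this]

theorem hard_name {m c b : ℕ} (x : Fin (free m) → Bool) (i : Fin m) (j : Fin c) (t : Fin b) :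
    hard m c b x (i, j, t.castSucc) = Nat.testBit (lit m x i j).1 t := by
  unfold hard
  rw [dif_pos (show (t.castSucc : Fin (b + 1)).1 < b from t.2)]
  rfl

theorem hard_sign {m c b : ℕ} (x : Fin (free m) → Bool) (i : Fin m) (j : Fin c) :
    hard m c b x (i, j, Fin.last b) = (lit m x i j).2 := by
  unfold hard
  rw [dif_neg (show ¬ (Fin.last b).1 < b from by simp)]

/-- the hard instance is satisfiable iff the parity of `x` is odd -/
theorem hard_sat {m c b : ℕ} (hc : 2 ≤ c) (hm : 2 ≤ m) (hb : m ≤ 2 ^ b)
    (x : Fin (free m) → Bool) : Sat m c b (hard m c b x) ↔ OddPar (free m) x := by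
  classical
  have hlm : 2 * free m + 2 ≤ m := by unfold free; omega
  have key : Sat m c b (hard m c b x) ↔ ∃ α : (Fin b → Bool) → Bool, ∀ i : Fin m, ∃ j : Fin c,
      α (fun t => Nat.testBit (lit m x i j).1 t) = (lit m x i j).2 := by
    unfold Sat
    simp only [hard_name, hard_sign]
  rw [key, ← pre_all]
  constructor
  · rintro ⟨α, hα⟩
    set β : ℕ → Bool := fun v => α fun t => Nat.testBit v t with hβ
    have h0 : β 0 = false := by
      obtain ⟨j, hj⟩ := hα ⟨2 * (free m), by omega⟩
      unfold lit at hj
      rw [dif_neg (by simp only; omega), if_pos rfl] at hj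
      exact hj
    have hl1 : β (free m) = true := by
      obtain ⟨j, hj⟩ := hα ⟨2 * (free m) + 1, by omega⟩
      unfold lit at hj
      rw [dif_neg (by simp only; omega), if_neg (by simp only; omega)] at hj
      exact hj
    have hstep : ∀ q (hq : q < (free m)), β (q + 1) = xor (β q) (x ⟨q, hq⟩) := by
      intro q hq
      obtain ⟨j, hj⟩ := hα ⟨2 * q, by omega⟩
      obtain ⟨j', hj'⟩ := hα ⟨2 * q + 1, by omega⟩
      have e1 : 2 * q / 2 = q := by omega
      have e2 : (2 * q + 1) / 2 = q := by omega
      have hA : β (q + 1) = true ∨ β q = x ⟨q, hq⟩ := by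
        unfold lit at hj
        simp only [e1, hq, dif_pos] at hj
        by_cases hj0 : j.1 = 0
        · rw [if_pos hj0] at hj
          left
          have : 2 * q % 2 = 0 := by omega
          simpa [this] using hj
        · rw [if_neg hj0] at hj
          right
          have : ¬ 2 * q % 2 = 1 := by omega
          simpa [this] using hj
      have hB : β (q + 1) = false ∨ β q = !(x ⟨q, hq⟩) := by
        unfold lit at hj'
        simp only [e2, hq, dif_pos] at hj'
        by_cases hj0 : j'.1 = 0
        · rw [if_pos hj0] at hj'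
          left
          have : ¬ (2 * q + 1) % 2 = 0 := by omega
          simpa [this] using hj'
        · rw [if_neg hj0] at hj'
          right
          have : (2 * q + 1) % 2 = 1 := by omega
          simpa [this] using hj'
      revert hA hB
      cases β (q + 1) <;> cases β q <;> cases x ⟨q, hq⟩ <;> simp
    have hpre : ∀ v ≤ (free m), β v = pre x v := by
      intro v
      induction v with
      | zero => intro _; rw [h0]; rfl
      | succ v ih =>
        intro hv
        rw [hstep v hv, ih (by omega), pre, dif_pos (show v < free m from hv)]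
    rw [← hpre (free m) le_rfl, hl1]
  · intro hodd
    refine ⟨fun s => decide (∃ v ≤ (free m), (∀ t : Fin b, Nat.testBit v t = s t) ∧ pre x v = true),
      fun i => ?_⟩
    have hval : ∀ v ≤ (free m), decide (∃ v' ≤ (free m), (∀ t : Fin b, Nat.testBit v' t = Nat.testBit v t) ∧
        pre x v' = true) = pre x v := by
      intro v hv
      have hinj : ∀ v' ≤ (free m), (∀ t : Fin b, Nat.testBit v' t = Nat.testBit v t) → v' = v := by
        intro v' hv' h
        apply Nat.eq_of_testBit_eq
        intro t
        by_cases ht : t < b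
        · exact h ⟨t, ht⟩
        · rw [not_lt] at ht
          have h2 : 2 ^ b ≤ 2 ^ t := Nat.pow_le_pow_right (by norm_num) ht
          rw [Nat.testBit_lt_two_pow (by omega), Nat.testBit_lt_two_pow (by omega)]
      cases hp : pre x v
      · rw [decide_eq_false_iff_not]
        rintro ⟨v', hv', h, h'⟩
        rw [hinj v' hv' h, hp] at h'
        exact absurd h' (by simp)
      · rw [decide_eq_true_iff]
        exact ⟨v, hv, fun _ => rfl, hp⟩
    by_cases hi : i.1 / 2 < (free m)
    · have hsucc : pre x (i.1 / 2 + 1) = xor (pre x (i.1 / 2)) (x ⟨i.1 / 2, hi⟩) := by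
        rw [pre, dif_pos (show i.1 / 2 < free m from hi)]
      have hj0 : (lit m x i (⟨0, by omega⟩ : Fin c).1) = (i.1 / 2 + 1, decide (i.1 % 2 = 0)) := by
        unfold lit
        rw [dif_pos hi, if_pos rfl]
      have hj1 : (lit m x i (⟨1, by omega⟩ : Fin c).1)
          = (i.1 / 2, xor (x ⟨i.1 / 2, hi⟩) (decide (i.1 % 2 = 1))) := by
        unfold lit
        rw [dif_pos hi, if_neg (by norm_num)]
      have h0 := hval (i.1 / 2 + 1) hi
      have h1 := hval (i.1 / 2) hi.le
      by_cases hcase : pre x (i.1 / 2 + 1) = decide (i.1 % 2 = 0)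
      · refine ⟨⟨0, by omega⟩, ?_⟩
        rw [hj0]
        exact h0.trans hcase
      · refine ⟨⟨1, by omega⟩, ?_⟩
        rw [hj1]
        refine h1.trans ?_
        rw [hsucc] at hcase
        have h3 : i.1 % 2 = 0 ∨ i.1 % 2 = 1 := by omega
        revert hcase
        rcases h3 with h3 | h3 <;> rw [h3] <;> cases pre x (i.1 / 2) <;>
          cases x ⟨i.1 / 2, hi⟩ <;> simp
    · refine ⟨⟨0, by omega⟩, ?_⟩
      by_cases hi2 : i.1 = 2 * (free m)
      · have e : lit m x i (⟨0, by omega⟩ : Fin c).1 = (0, false) := by
          unfold lit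
          rw [dif_neg hi, if_pos hi2]
        rw [e]
        exact hval 0 (Nat.zero_le _)
      · have e : lit m x i (⟨0, by omega⟩ : Fin c).1 = ((free m), true) := by
          unfold lit
          rw [dif_neg hi, if_neg hi2]
        rw [e]
        exact (hval (free m) le_rfl).trans hodd

/-- every bit of the hard instance is constant or a bit of `x` or its negation -/
theorem hard_coord (m c b : ℕ) : CoordV (hard m c b) := by
  rintro ⟨i, j, t⟩
  by_cases ht : t.1 < b
  · have e : (fun x : Fin (free m) → Bool => sg (hard m c b x (i, j, t)))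
        = fun x => sg (Nat.testBit (lit m x i j).1 t.1) := by
      funext x
      unfold hard
      rw [dif_pos (show (i, j, t).2.2.1 < b from ht)]
    rw [e]
    have e2 : ∀ x y : Fin (free m) → Bool, (lit m x i j).1 = (lit m y i j).1 := by
      intro x y
      unfold lit
      split_ifs <;> rfl
    have e3 : (fun x : Fin (free m) → Bool => sg (Nat.testBit (lit m x i j).1 t.1))
        = fun _ => sg (Nat.testBit (lit m (fun _ => false) i j).1 t.1) := by
      funext x
      rw [e2 x fun _ => false]
    rw [e3]
    exact const_mem _ _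
  · have e : (fun x : Fin (free m) → Bool => sg (hard m c b x (i, j, t)))
        = fun x => sg (lit m x i j).2 := by
      funext x
      unfold hard
      rw [dif_neg (show ¬ (i, j, t).2.2.1 < b from ht)]
    rw [e]
    by_cases hi : i.1 / 2 < free m
    · unfold lit
      by_cases hj : j.1 = 0
      · simp only [hi, dif_pos, hj, if_true]
        exact const_mem _ _
      · simp only [hi, dif_pos, hj, if_false]
        have e2 : (fun x : Fin (free m) → Bool => sg (xor (x ⟨i.1 / 2, hi⟩) (decide (i.1 % 2 = 1))))
            = sg (decide (i.1 % 2 = 1)) • fun x : Fin (free m) → Bool => sg (x ⟨i.1 / 2, hi⟩) := by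
          funext x
          rw [sg_xor, Pi.smul_apply, smul_eq_mul, mul_comm]
        rw [e2]
        exact Submodule.smul_mem _ _ (coord_mem _)
    · by_cases hi2 : i.1 = 2 * free m
      · have e2 : (fun x : Fin (free m) → Bool => sg (lit m x i j).2) = fun _ => sg false := by
          funext x; unfold lit; rw [dif_neg hi, if_pos hi2]
        rw [e2]
        exact const_mem _ _
      · have e2 : (fun x : Fin (free m) → Bool => sg (lit m x i j).2) = fun _ => sg true := by
          funext x; unfold lit; rw [dif_neg hi, if_neg hi2]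
        rw [e2]
        exact const_mem _ _

open Classical in
/-- average-case hardness of satisfiability, explicit form -/
theorem sat_avg {m c b k h g D w : ℕ} (hc : 2 ≤ c) (hm : 2 ≤ m) (hb : m ≤ 2 ^ b)
    (hh : 1 ≤ h) (hg1 : 1 ≤ g) (hgh : g ≤ 2 ^ h) (hD : 1 ≤ D) (hw : w ≤ 2 ^ h)
    (hl : 54 * 10 ^ 6 * D * g ^ 2 * h ^ 2 * (8 * (h + k)) ^ (2 * k) ≤ free m)
    {F : Fin w → (CnfBits m c b → Bool) → Bool} (hF : F ∈ Circ (LeafV (CnfBits m c b) D) w k)
    (i₀ : Fin w) :
    ((Finset.univ.filter fun x : Fin (free m) → Bool =>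
      F i₀ (hard m c b x) = true ↔ Sat m c b (hard m c b x)).card : ℝ)
      ≤ (1 / 2 + 1 / g) * 2 ^ free m := by
  obtain ⟨F0, hF0, hF⟩ := circ_leaves hF
  have h1 := parity_avg hh hg1 hgh hD hw hl (F0 := fun i x => F0 i (hard m c b x))
    (fun i => (LeafV.app hD (hF0 i)).comp (hard_coord m c b)) (Circ.comp (hard m c b) hF) i₀
  refine le_trans (le_of_eq ?_) h1
  congr 1
  refine congrArg Finset.card (Finset.filter_congr fun x _ => ?_)
  rw [hard_sat hc hm hb]

end H599.OW
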