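import Pool.Agent.H599R2.OW.RDeg
import Pool.Agent.H599R2.PH.Smol

/-!
# Real approximation of constant-depth circuits, and voting polynomials
-/

namespace H599.OW

open Finset H599.QB H599.PH

/-- `g` is an AND or an OR of unbounded fan-in of some of the functions `F i` and their negations
(the pair `(i, b)` stands for the literal `F i = b`). -/
def GateAO {X : Type} {w : ℕ} (F : Fin w → X → Bool) (g : X → Bool) : Prop :=
  ∃ S : Finset (Fin w × Bool),
    (∀ x, g x = true ↔ ∀ a ∈ S, F a.1 x = a.2) ∨ (∀ x, g x = true ↔ ∃ a ∈ S, F a.1 x = a.2)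

/-- The `w`-tuples of functions computed by the gates of the top layer of circuits with `k` layers
of at most `w` AND and OR gates above leaves in `L`. -/
def CircAO {X : Type} (L : Set (X → Bool)) (w : ℕ) : ℕ → Set (Fin w → X → Bool)
  | 0 => {F | ∀ i, F i ∈ L}
  | k + 1 => {G | ∃ F ∈ CircAO L w k, ∀ i, GateAO F (G i)}

theorem circAO_leaves {X : Type} {L : Set (X → Bool)} {w k : ℕ} {F : Fin w → X → Bool}
    (h : F ∈ CircAO L w k) : ∃ F0 : Fin w → X → Bool, (∀ i, F0 i ∈ L) ∧
      F ∈ CircAO (Set.range F0) w k := by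
  induction k generalizing F with
  | zero => exact ⟨F, h, fun i => ⟨i, rfl⟩⟩
  | succ k ih =>
    obtain ⟨G, hG, hF⟩ := h
    obtain ⟨F0, h0, h1⟩ := ih hG
    exact ⟨F0, h0, G, h1, hF⟩

variable {W : Type} [Fintype W] [DecidableEq W]

/-- approximation of an `∃` over the reals -/
theorem or_real {ι : Type} [Fintype ι] [DecidableEq ι] {d h : ℕ} (hι : Fintype.card ι ≤ 2 ^ h)
    (r : ℕ) (p : ι → (W → Bool) → ℝ) (hp : ∀ y, p y ∈ Deg W d) :
    ∃ q ∈ Deg W (4 * r * ((h + 1) * d)), ∃ F : Finset (W → Bool),
      (∀ u ∉ F, (∀ y, p y u = 0 ∨ p y u = 1) →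
        ((∃ y, p y u = 1) → q u = 1) ∧ ((¬ ∃ y, p y u = 1) → q u = 0)) ∧
      F.card * 2 ^ r ≤ 2 ^ Fintype.card W := by
  classical
  set K : ℕ := 2 ^ (h + 2) with hK
  have hK0 : 0 < K := by positivity
  haveI : NeZero K := ⟨hK0.ne'⟩
  set N := Fintype.card ι with hN
  set A : ℕ → Finset (Fin K) := fun i => Finset.univ.filter fun c => c.1 < 2 ^ i with hA
  have hAcard : ∀ i ≤ h, (A i).card = 2 ^ i := by
    intro i hi
    have h1 : 2 ^ i ≤ K := Nat.pow_le_pow_right (by norm_num) (by omega)
    rw [hA]
    beta_reduce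
    have h2 : (Finset.univ.filter fun c : Fin K => c.1 < 2 ^ i).card
        = (Finset.range (2 ^ i)).card := by
      refine Finset.card_bij (fun c _ => c.1) ?_ ?_ ?_
      · intro c hc
        exact Finset.mem_range.2 (Finset.mem_filter.1 hc).2
      · intro c _ c' _ h
        exact Fin.ext h
      · intro c hc
        have := Finset.mem_range.1 hc
        exact ⟨⟨c, by omega⟩, Finset.mem_filter.2 ⟨Finset.mem_univ _, this⟩, rfl⟩
    rw [h2, Finset.card_range]
  set X : (W → Bool) → Finset ι := fun u => Finset.univ.filter fun y => p y u = 1 with hX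
  set fail : (ι → Fin K) → (W → Bool) → Prop := fun ω u => (X u).Nonempty ∧
    ∀ i ≤ h, ((X u).filter fun y => ω y ∈ A i).card ≠ 1 with hfail
  have hone : ∀ u : W → Bool,
      16 * (Finset.univ.filter fun ω : ι → Fin K => fail ω u).card ≤ 13 * K ^ N := by
    intro u
    by_cases hu : (X u).Nonempty
    · have hs0 : (X u).card ≠ 0 := (Finset.card_pos.2 hu).ne'
      have hsN : (X u).card ≤ 2 ^ h := (Finset.card_le_univ _).trans hι
      set j := Nat.log 2 (X u).card with hj
      have hj1 : 2 ^ j ≤ (X u).card := Nat.pow_log_le_self 2 hs0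
      have hj2 : (X u).card < 2 ^ (j + 1) := Nat.lt_pow_succ_log_self (by norm_num) _
      have hjh : j ≤ h := by
        by_contra hcon
        rw [not_le] at hcon
        have : 2 ^ (h + 1) ≤ 2 ^ j := Nat.pow_le_pow_right (by norm_num) hcon
        rw [pow_succ] at this
        have : 0 < 2 ^ h := by positivity
        omega
      have hcard := hAcard (h - j) (Nat.sub_le _ _)
      have e1 : 2 ^ j * 2 ^ (h - j) = 2 ^ h := by rw [← pow_add]; congr 1; omega
      have e2 : K = 4 * 2 ^ h := by rw [hK, pow_add]; ring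
      have e3 : 2 ^ (j + 1) * 2 ^ (h - j) = 2 * 2 ^ h := by rw [pow_succ]; rw [← e1]; ring
      have hiso := isolate hK0 (A (h - j)) (X u) (by
        rw [hcard, e2]
        refine Nat.mul_le_mul_left _ ?_
        rw [← e1]
        exact Nat.mul_le_mul_right _ hj1) (by
        rw [hcard, e2]
        have : (X u).card * 2 ^ (h - j) ≤ 2 ^ (j + 1) * 2 ^ (h - j) :=
          Nat.mul_le_mul_right _ hj2.le
        rw [e3] at this
        omega)
      rw [← hN] at hiso
      have hdisj : (Finset.univ.filter fun ω : ι → Fin K => fail ω u).card +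
          (Finset.univ.filter fun ω : ι → Fin K =>
            ((X u).filter fun y => ω y ∈ A (h - j)).card = 1).card ≤ K ^ N := by
        rw [← Finset.card_union_of_disjoint]
        · refine (Finset.card_le_univ _).trans (le_of_eq ?_)
          rw [Fintype.card_fun, Fintype.card_fin]
        · rw [Finset.disjoint_filter]
          intro ω _ h1 h2
          exact h1.2 (h - j) (Nat.sub_le _ _) h2
      omega
    · have : (Finset.univ.filter fun ω : ι → Fin K => fail ω u) = ∅ := by
        rw [Finset.filter_eq_empty_iff]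
        intro ω _ h1
        exact hu h1.1
      rw [this]; simp
  -- a good choice
  obtain ⟨R, hR⟩ : ∃ R : Fin (4 * r) → (ι → Fin K),
      (Finset.univ.filter fun u : W → Bool => ∀ a, fail (R a) u).card * 2 ^ r
        ≤ 2 ^ Fintype.card W ∨ r = 0 := by
    rcases Nat.eq_zero_or_pos r with hr | hr
    · exact ⟨fun _ _ => 0, Or.inr hr⟩
    suffices h : ∃ R : Fin (4 * r) → (ι → Fin K),
      (Finset.univ.filter fun u : W → Bool => ∀ a, fail (R a) u).card * 2 ^ r
        ≤ 2 ^ Fintype.card W by
      obtain ⟨R, hR⟩ := h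
      exact ⟨R, Or.inl hR⟩
    by_contra hcon
    push Not at hcon
    have h1 : ∑ R : Fin (4 * r) → (ι → Fin K),
        (Finset.univ.filter fun u : W → Bool => ∀ a, fail (R a) u).card
          = ∑ u : W → Bool, (Finset.univ.filter fun R : Fin (4 * r) → (ι → Fin K) =>
            ∀ a, fail (R a) u).card := by
      simp only [Finset.card_filter]
      exact Finset.sum_comm
    have h2 : ∀ u : W → Bool,
        (Finset.univ.filter fun R : Fin (4 * r) → (ι → Fin K) => ∀ a, fail (R a) u).card * 2 ^ r
          ≤ (K ^ N) ^ (4 * r) := by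
      intro u
      have h3 := hone u
      set Z := Finset.univ.filter fun ω : ι → Fin K => fail ω u with hZ
      have h4 : (Finset.univ.filter fun R : Fin (4 * r) → (ι → Fin K) => ∀ a, fail (R a) u)
          ⊆ Fintype.piFinset fun _ : Fin (4 * r) => Z := by
        intro R hR
        rw [Fintype.mem_piFinset]
        intro a
        rw [hZ, Finset.mem_filter]
        exact ⟨Finset.mem_univ _, (Finset.mem_filter.1 hR).2 a⟩
      have h5 := Finset.card_le_card h4
      rw [Fintype.card_piFinset, Finset.prod_const, Finset.card_univ, Fintype.card_fin] at h5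
      have h6 : (16 * Z.card) ^ (4 * r) ≤ (13 * K ^ N) ^ (4 * r) := Nat.pow_le_pow_left h3 _
      have h7 : 13 ^ (4 * r) * 2 ^ r ≤ 16 ^ (4 * r) := by
        rw [pow_mul, pow_mul, ← mul_pow]
        exact Nat.pow_le_pow_left (by norm_num) r
      have hpos : 0 < 16 ^ (4 * r) := by positivity
      refine Nat.le_of_mul_le_mul_left ?_ hpos
      calc 16 ^ (4 * r) * (_ * 2 ^ r) ≤ 16 ^ (4 * r) * (Z.card ^ (4 * r) * 2 ^ r) :=
            Nat.mul_le_mul_left _ (Nat.mul_le_mul_right _ h5)
        _ = (16 * Z.card) ^ (4 * r) * 2 ^ r := by rw [mul_pow]; ring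
        _ ≤ (13 * K ^ N) ^ (4 * r) * 2 ^ r := Nat.mul_le_mul_right _ h6
        _ = (13 ^ (4 * r) * 2 ^ r) * (K ^ N) ^ (4 * r) := by rw [mul_pow]; ring
        _ ≤ 16 ^ (4 * r) * (K ^ N) ^ (4 * r) := Nat.mul_le_mul_right _ h7
    have h6 : ∑ R : Fin (4 * r) → (ι → Fin K), 2 ^ Fintype.card W
        < ∑ R : Fin (4 * r) → (ι → Fin K),
          (Finset.univ.filter fun u : W → Bool => ∀ a, fail (R a) u).card * 2 ^ r :=
      Finset.sum_lt_sum_of_nonempty Finset.univ_nonempty fun R _ => hcon R
    rw [← Finset.sum_mul, h1, Finset.sum_mul] at h6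
    have h7 : ∑ u : W → Bool,
        (Finset.univ.filter fun R : Fin (4 * r) → (ι → Fin K) => ∀ a, fail (R a) u).card * 2 ^ r
        ≤ ∑ _u : W → Bool, (K ^ N) ^ (4 * r) := Finset.sum_le_sum fun u _ => h2 u
    have h8 := h6.trans_le h7
    simp only [Finset.sum_const, Finset.card_univ, Fintype.card_fun,
      Fintype.card_bool, Fintype.card_fin, smul_eq_mul] at h8
    rw [mul_comm] at h8
    exact lt_irrefl _ h8
  have hR' : (Finset.univ.filter fun u : W → Bool => ∀ a, fail (R a) u).card * 2 ^ r
        ≤ 2 ^ Fintype.card W := by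
    rcases hR with h | h
    · exact h
    · have h1 : 2 ^ r = 1 := by rw [h]; rfl
      rw [h1, mul_one]
      refine (Finset.card_le_univ _).trans (le_of_eq ?_)
      rw [Fintype.card_fun, Fintype.card_bool]
  set s : Fin (4 * r) → ℕ → (W → Bool) → ℝ := fun a i u =>
    ∑ y ∈ Finset.univ.filter (fun y => R a y ∈ A i), p y u with hs
  refine ⟨fun u => 1 - ∏ a : Fin (4 * r), ∏ i ∈ Finset.range (h + 1), (1 - s a i u), ?_,
    Finset.univ.filter fun u : W → Bool => ∀ a, fail (R a) u, ?_, hR'⟩
  · have h1 : (fun u => ∏ a : Fin (4 * r), ∏ i ∈ Finset.range (h + 1), (1 - s a i u))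
        ∈ Deg W (4 * r * ((h + 1) * d)) := by
      have h2 := prod_mem (V := W) (Finset.univ : Finset (Fin (4 * r))) ((h + 1) * d)
        (fun a u => ∏ i ∈ Finset.range (h + 1), (1 - s a i u)) fun a _ => by
          have h3 := prod_mem (V := W) (Finset.range (h + 1)) d
            (fun i u => (1 - s a i u)) fun i _ =>
              Submodule.sub_mem _ (const_mem _ _) (sum_mem' _ _ fun y _ => hp y)
          rw [Finset.card_range] at h3
          exact h3
      rw [Finset.card_univ, Fintype.card_fin] at h2
      exact h2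
    exact Submodule.sub_mem _ (const_mem _ _) h1
  · intro u hu h01
    rw [Finset.mem_filter, not_and] at hu
    have hu' := hu (Finset.mem_univ _)
    constructor
    · intro hex
      have hne : (X u).Nonempty := by
        obtain ⟨y, hy⟩ := hex
        exact ⟨y, Finset.mem_filter.2 ⟨Finset.mem_univ _, hy⟩⟩
      obtain ⟨a, ha⟩ : ∃ a, ¬ fail (R a) u := by
        by_contra hcon
        push Not at hcon
        exact hu' hcon
      obtain ⟨i, hi, hi1⟩ : ∃ i ≤ h, ((X u).filter fun y => R a y ∈ A i).card = 1 := by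
        by_contra hcon
        push Not at hcon
        exact ha ⟨hne, hcon⟩
      have hsum : s a i u = 1 := by
        rw [hs]
        beta_reduce
        have h3 : ∀ y ∈ Finset.univ.filter (fun y => R a y ∈ A i),
            p y u = if y ∈ X u then 1 else 0 := by
          intro y _
          rcases h01 y with h0 | h1
          · rw [if_neg, h0]
            intro hmem
            have := (Finset.mem_filter.1 hmem).2
            rw [h0] at this
            norm_num at this
          · have hy : y ∈ X u := by
              rw [hX]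
              exact Finset.mem_filter.2 ⟨Finset.mem_univ _, h1⟩
            rw [if_pos hy, h1]
        rw [Finset.sum_congr rfl h3, Finset.sum_ite_mem, Finset.sum_const, nsmul_eq_mul, mul_one]
        have h4 : (Finset.univ.filter (fun y => R a y ∈ A i)) ∩ X u
            = (X u).filter fun y => R a y ∈ A i := by
          ext y
          simp only [Finset.mem_inter, Finset.mem_filter, Finset.mem_univ, true_and]
          tauto
        rw [h4, hi1, Nat.cast_one]
      beta_reduce
      rw [Finset.prod_eq_zero (Finset.mem_univ a), sub_zero]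
      refine Finset.prod_eq_zero (Finset.mem_range.2 (by omega : i < h + 1)) ?_
      rw [hsum, sub_self]
    · intro hex
      have h3 : ∀ y, p y u = 0 := fun y => by
        rcases h01 y with h0 | h1
        · exact h0
        · exact absurd ⟨y, h1⟩ hex
      have h4 : ∀ a i, s a i u = 0 := fun a i => by
        rw [hs]
        exact Finset.sum_eq_zero fun y _ => h3 y
      simp [h4]

end H599.OW
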