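import Pool.Agent.H599R2.PH.Restr

/-!
# Real degree of the restrictions
-/

namespace H599.OW

open Finset H599.QB H599.PH

variable {W : Type} [Fintype W] [DecidableEq W]

omit [Fintype W] in
/-- Moebius inversion over the subsets of a finite set -/
theorem moebiusR (G : Finset W → ℝ) (U : Finset W) :
    ∑ S ∈ U.powerset, (-1) ^ S.card * ∑ U' ∈ S.powerset, (-1) ^ U'.card * G U' = G U := by
  induction U using Finset.induction_on generalizing G with
  | empty => simp
  | insert a U ha ih =>
    have hin : ∀ F : Finset W → ℝ, ∀ S : Finset W, a ∉ S →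
        ∑ U' ∈ (insert a S).powerset, F U'
          = ∑ U' ∈ S.powerset, F U' + ∑ U' ∈ S.powerset, F (insert a U') := fun F S hS =>
      Finset.sum_powerset_insert hS F
    rw [hin _ U ha]
    have h1 : ∀ S ∈ U.powerset, (-1 : ℝ) ^ (insert a S).card *
        ∑ U' ∈ (insert a S).powerset, (-1) ^ U'.card * G U'
        = - ((-1) ^ S.card * ∑ U' ∈ S.powerset, (-1) ^ U'.card * G U')
          + (-1) ^ S.card * ∑ U' ∈ S.powerset, (-1) ^ U'.card * G (insert a U') := by
      intro S hS
      have haS : a ∉ S := fun h => ha (Finset.mem_powerset.1 hS h)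
      rw [hin _ S haS, Finset.card_insert_of_notMem haS, pow_succ]
      have h2 : ∑ U' ∈ S.powerset, (-1 : ℝ) ^ (insert a U').card * G (insert a U')
          = - ∑ U' ∈ S.powerset, (-1) ^ U'.card * G (insert a U') := by
        rw [← Finset.sum_neg_distrib]
        refine Finset.sum_congr rfl fun U' hU' => ?_
        have haU : a ∉ U' := fun h => haS (Finset.mem_powerset.1 hU' h)
        rw [Finset.card_insert_of_notMem haU, pow_succ]
        ring
      rw [h2]; ring
    rw [Finset.sum_congr rfl h1, Finset.sum_add_distrib, Finset.sum_neg_distrib]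
    have h3 := ih fun U' => G (insert a U')
    beta_reduce at h3
    rw [h3]; ring

/-- the indicator of a bit -/
def bR (b : Bool) : ℝ := if b then 1 else 0

theorem bR_mem (i : W) : (fun x : W → Bool => bR (x i)) ∈ Deg W 1 := by
  have e : (fun x : W → Bool => bR (x i)) = (-(1 / 2) : ℝ) • (fun x : W → Bool => sg (x i)) +
      (fun _ => (1 / 2 : ℝ)) := by
    funext x
    simp only [Pi.add_apply, Pi.smul_apply, smul_eq_mul, bR, sg]
    cases x i <;> norm_num
  rw [e]
  exact Submodule.add_mem _ (Submodule.smul_mem _ _ (coord_mem i)) (const_mem _ _)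

/-- A function on the cube all of whose alternating sums over sets of size more than `t` at the
origin vanish has degree at most `t`. -/
theorem mem_of_altR {t : ℕ} (G : (W → Bool) → ℝ)
    (h : ∀ S : Finset W, t < S.card →
      ∑ U ∈ S.powerset, (-1) ^ U.card * G (fun w => decide (w ∈ U)) = 0) : G ∈ Deg W t := by
  set A : Finset W → ℝ := fun S =>
    (-1) ^ S.card * ∑ U ∈ S.powerset, (-1) ^ U.card * G (fun w => decide (w ∈ U)) with hA
  have key : G = fun u => ∑ S ∈ (Finset.univ : Finset (Finset W)).filter (fun S => S.card ≤ t),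
      A S * ∏ w ∈ S, bR (u w) := by
    funext u
    have h1 := moebiusR (fun U => G (fun w => decide (w ∈ U))) (Finset.univ.filter fun w => u w = true)
    have h2 : (fun w => decide (w ∈ Finset.univ.filter fun w => u w = true)) = u := by
      funext w
      cases hw : u w <;> simp [hw]
    beta_reduce at h1
    rw [h2] at h1
    rw [← h1]
    have h3 : ∀ S : Finset W, A S * ∏ w ∈ S, bR (u w)
        = if S ⊆ Finset.univ.filter (fun w => u w = true) then A S else 0 := by
      intro S
      split_ifs with hS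
      · rw [Finset.prod_eq_one, mul_one]
        intro w hw
        have := (Finset.mem_filter.1 (hS hw)).2
        rw [this]; rfl
      · obtain ⟨w, hw, hw'⟩ := Finset.not_subset.1 hS
        rw [Finset.prod_eq_zero hw, mul_zero]
        have : u w = false := by
          rw [Finset.mem_filter] at hw'
          simpa using hw'
        rw [this]; rfl
    rw [Finset.sum_congr rfl fun S _ => h3 S, ← Finset.sum_filter, Finset.filter_filter]
    symm
    refine Finset.sum_subset ?_ ?_
    · intro S hS
      exact Finset.mem_powerset.2 (Finset.mem_filter.1 hS).2.2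
    · intro S hS hS'
      have hcard : t < S.card := by
        by_contra hcon
        exact hS' (Finset.mem_filter.2 ⟨Finset.mem_univ _, by omega, Finset.mem_powerset.1 hS⟩)
      rw [hA]
      beta_reduce
      rw [h S hcard, mul_zero]
  rw [key]
  refine sum_mem' _ _ fun S hS => ?_
  have h4 := prod_mem S 1 (fun w x => bR (x w)) fun w _ => bR_mem w
  rw [mul_one] at h4
  exact Submodule.smul_mem _ (A S) (Deg.mono (Finset.mem_filter.1 hS).2 h4)

/-- restriction to a subcube: functions whose large alternating sums vanish have low degree -/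
theorem sub_memR {V : Type} [Fintype V] [DecidableEq V] {t : ℕ} {S₀ : Finset V} {x : V → Bool}
    {g : (V → Bool) → Bool}
    (h : ∀ S ⊆ S₀, t < S.card → alt S (ind g) x = 0) (φ : W → V) (hinj : Function.Injective φ)
    (hφ : ∀ w, φ w ∈ S₀) :
    (fun u : W → Bool => ind g (flip ((Finset.univ.filter fun w => u w = true).image
      φ) x)) ∈ Deg W t := by
  classical
  refine mem_of_altR _ fun S hS => ?_
  have h1 := h (S.image φ) (by
    intro v hv
    obtain ⟨w, _, rfl⟩ := Finset.mem_image.1 hv
    exact hφ w) (by rw [Finset.card_image_of_injective _ hinj]; exact hS)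
  unfold alt at h1
  rw [Finset.powerset_image, Finset.sum_image (fun a _ b _ hab =>
    Finset.image_injective hinj hab)] at h1
  rw [← h1]
  refine Finset.sum_congr rfl fun U _ => ?_
  have h5 : (Finset.univ.filter fun w : W => decide (w ∈ U) = true) = U := by
    ext w; simp
  rw [h5, Finset.card_image_of_injective _ hinj]

/-- colourings with a prescribed set of colours at one point -/
theorem count_one {ι : Type} [Fintype ι] [DecidableEq ι] {K : ℕ} (A : Finset (Fin K)) (y : ι) :
    (Finset.univ.filter fun ω : ι → Fin K => ω y ∈ A).card * K = A.card * K ^ Fintype.card ι := by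
  have h1 : (Finset.univ.filter fun ω : ι → Fin K => ω y ∈ A)
      = Fintype.piFinset fun z => if z = y then A else Finset.univ := by
    ext ω
    simp only [Finset.mem_filter, Finset.mem_univ, true_and, Fintype.mem_piFinset]
    constructor
    · intro h z
      split_ifs with hz
      · rw [hz]; exact h
      · exact Finset.mem_univ _
    · intro h
      have := h y
      rwa [if_pos rfl] at this
  rw [h1, Fintype.card_piFinset]
  have h2 : ∀ z, (if z = y then A else (Finset.univ : Finset (Fin K))).card
      = if z = y then A.card else K := by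
    intro z
    split_ifs <;> simp
  rw [Finset.prod_congr rfl fun z _ => h2 z, ← Finset.mul_prod_erase Finset.univ _
    (Finset.mem_univ y), if_pos rfl]
  have h3 : ∏ z ∈ Finset.univ.erase y, (if z = y then A.card else K)
      = K ^ (Fintype.card ι - 1) := by
    rw [Finset.prod_congr rfl fun z hz => if_neg (Finset.ne_of_mem_erase hz), Finset.prod_const,
      Finset.card_erase_of_mem (Finset.mem_univ y), Finset.card_univ]
  have h4 : 0 < Fintype.card ι := Fintype.card_pos_iff.2 ⟨y⟩
  rw [h3, mul_assoc, ← pow_succ]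
  congr 2
  omega

theorem count_two {ι : Type} [Fintype ι] [DecidableEq ι] {K : ℕ} (A : Finset (Fin K)) {y y' : ι}
    (hne : y ≠ y') :
    (Finset.univ.filter fun ω : ι → Fin K => ω y ∈ A ∧ ω y' ∈ A).card * K ^ 2
      = A.card ^ 2 * K ^ Fintype.card ι := by
  have h1 : (Finset.univ.filter fun ω : ι → Fin K => ω y ∈ A ∧ ω y' ∈ A)
      = Fintype.piFinset fun z => if z = y ∨ z = y' then A else Finset.univ := by
    ext ω
    simp only [Finset.mem_filter, Finset.mem_univ, true_and, Fintype.mem_piFinset]
    constructor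
    · rintro ⟨h, h'⟩ z
      split_ifs with hz
      · rcases hz with rfl | rfl
        · exact h
        · exact h'
      · exact Finset.mem_univ _
    · intro h
      have h1 := h y
      have h2 := h y'
      rw [if_pos (Or.inl rfl)] at h1
      rw [if_pos (Or.inr rfl)] at h2
      exact ⟨h1, h2⟩
  rw [h1, Fintype.card_piFinset]
  have h2 : ∀ z, (if z = y ∨ z = y' then A else (Finset.univ : Finset (Fin K))).card
      = if z ∈ ({y, y'} : Finset ι) then A.card else K := by
    intro z
    simp only [Finset.mem_insert, Finset.mem_singleton]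
    split_ifs <;> simp
  rw [Finset.prod_congr rfl fun z _ => h2 z, Finset.prod_ite, Finset.prod_const, Finset.prod_const]
  have h3 : (Finset.univ.filter fun z : ι => z ∈ ({y, y'} : Finset ι)).card = 2 := by
    rw [Finset.filter_mem_eq_inter, Finset.univ_inter, Finset.card_pair hne]
  have h4 := Finset.card_filter_add_card_filter_not (s := (Finset.univ : Finset ι))
    (fun z => z ∈ ({y, y'} : Finset ι))
  rw [h3, Finset.card_univ] at h4
  rw [h3, mul_assoc, ← pow_add]
  congr 2
  omega

/-- Isolation: a random colour class contains exactly one element of `X`. -/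
theorem isolate {ι : Type} [Fintype ι] [DecidableEq ι] {K : ℕ} (hK : 0 < K) (A : Finset (Fin K))
    (X : Finset ι) (h1 : K ≤ 4 * (X.card * A.card)) (h2 : 2 * (X.card * A.card) ≤ K) :
    3 * K ^ Fintype.card ι ≤
      16 * (Finset.univ.filter fun ω : ι → Fin K => (X.filter fun y => ω y ∈ A).card = 1).card := by
  set n : (ι → Fin K) → ℕ := fun ω => (X.filter fun y => ω y ∈ A).card with hn
  set N := Fintype.card ι with hN
  have hKR : (0 : ℝ) < K := by exact_mod_cast hK
  -- first moment
  have m1 : (∑ ω, (n ω : ℝ)) * K = X.card * A.card * (K : ℝ) ^ N := by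
    have e1 : ∑ ω, n ω = ∑ y ∈ X, (Finset.univ.filter fun ω : ι → Fin K => ω y ∈ A).card := by
      simp only [hn, Finset.card_filter]
      exact Finset.sum_comm
    have e2 : (∑ ω, n ω) * K = X.card * A.card * K ^ N := by
      rw [e1, Finset.sum_mul, Finset.sum_congr rfl fun y _ => count_one A y, Finset.sum_const,
        smul_eq_mul, mul_assoc]
    exact_mod_cast e2
  -- second factorial moment
  have m2 : (∑ ω, ((n ω : ℝ) ^ 2 - n ω)) * K ^ 2 ≤ (X.card : ℝ) ^ 2 * A.card ^ 2 * (K : ℝ) ^ N := by
    have e0 : ∀ ω, (n ω) ^ 2 - n ω = ((X ×ˢ X).filter fun p : ι × ι => p.1 ≠ p.2 ∧ ω p.1 ∈ A ∧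
        ω p.2 ∈ A).card := by
      intro ω
      have h3 : ((X ×ˢ X).filter fun p : ι × ι => p.1 ≠ p.2 ∧ ω p.1 ∈ A ∧ ω p.2 ∈ A)
          = (X.filter fun y => ω y ∈ A).offDiag := by
        ext p
        simp only [Finset.mem_filter, Finset.mem_product, Finset.mem_offDiag]
        tauto
      rw [h3, Finset.offDiag_card]
      change n ω ^ 2 - n ω = n ω * n ω - n ω
      rw [sq]
    have e1 : ∀ ω, (n ω : ℝ) ^ 2 - n ω = (((n ω) ^ 2 - n ω : ℕ) : ℝ) := by
      intro ω
      rw [Nat.cast_sub (by nlinarith [Nat.zero_le (n ω)])]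
      push_cast; ring
    have e2 : (∑ ω, ((n ω) ^ 2 - n ω)) * K ^ 2 ≤ X.card ^ 2 * A.card ^ 2 * K ^ N := by
      have e3 : ∑ ω, ((n ω) ^ 2 - n ω) = ∑ p ∈ (X ×ˢ X).filter (fun p : ι × ι => p.1 ≠ p.2),
          (Finset.univ.filter fun ω : ι → Fin K => ω p.1 ∈ A ∧ ω p.2 ∈ A).card := by
        rw [Finset.sum_congr rfl fun ω _ => e0 ω]
        simp only [Finset.card_filter]
        rw [Finset.sum_comm, Finset.sum_filter]
        refine Finset.sum_congr rfl fun p _ => ?_
        by_cases hp : p.1 ≠ p.2
        · simp [hp]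
        · simp [hp]
      rw [e3, Finset.sum_mul, Finset.sum_congr rfl fun p hp =>
        count_two A (Finset.mem_filter.1 hp).2, Finset.sum_const, smul_eq_mul, ← mul_assoc]
      refine Nat.mul_le_mul_right _ (Nat.mul_le_mul_right _ ?_)
      refine (Finset.card_filter_le _ _).trans ?_
      rw [Finset.card_product, sq]
    rw [Finset.sum_congr rfl fun ω _ => e1 ω]
    exact_mod_cast e2
  have h3 : ∑ ω, ((n ω : ℝ) - ((n ω : ℝ) ^ 2 - n ω)) ≤
      ((Finset.univ.filter fun ω : ι → Fin K => (X.filter fun y => ω y ∈ A).card = 1).card : ℝ) := by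
    rw [Finset.card_filter]
    push_cast
    refine Finset.sum_le_sum fun ω _ => ?_
    change (n ω : ℝ) - ((n ω : ℝ) ^ 2 - n ω) ≤ if n ω = 1 then 1 else 0
    rcases Nat.lt_or_ge (n ω) 2 with h | h
    · interval_cases hh : n ω
      · simp
      · norm_num
    · have h5 : (2 : ℝ) ≤ n ω := by exact_mod_cast h
      rw [if_neg (by omega)]
      nlinarith
  have h4 : 3 * (K : ℝ) ^ N ≤ 16 * ∑ ω, ((n ω : ℝ) - ((n ω : ℝ) ^ 2 - n ω)) := by
    rw [Finset.sum_sub_distrib]
    set s1 := ∑ ω, (n ω : ℝ) with hs1
    set s2 := ∑ ω, ((n ω : ℝ) ^ 2 - n ω) with hs2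
    set a : ℝ := X.card * A.card with ha
    have g1 : (K : ℝ) ≤ 4 * a := by rw [ha]; exact_mod_cast h1
    have g2 : 2 * a ≤ K := by rw [ha]; exact_mod_cast h2
    have p0 : (0 : ℝ) < (K : ℝ) ^ N := by positivity
    have q1 : s1 * K ^ 2 = a * K * (K : ℝ) ^ N := by
      rw [sq, ← mul_assoc, m1]; ring
    have q2 : s2 * K ^ 2 ≤ a ^ 2 * (K : ℝ) ^ N := by
      refine m2.trans (le_of_eq ?_)
      rw [ha]; ring
    have key : 3 * (K : ℝ) ^ N * K ^ 2 ≤ 16 * (s1 - s2) * K ^ 2 := by
      have q3 : 3 * (K : ℝ) ^ 2 ≤ 16 * (a * K - a ^ 2) := by nlinarith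
      calc 3 * (K : ℝ) ^ N * K ^ 2 = (3 * (K : ℝ) ^ 2) * (K : ℝ) ^ N := by ring
        _ ≤ 16 * (a * K - a ^ 2) * (K : ℝ) ^ N := mul_le_mul_of_nonneg_right q3 p0.le
        _ = 16 * (a * K * (K : ℝ) ^ N - a ^ 2 * (K : ℝ) ^ N) := by ring
        _ ≤ 16 * (s1 * K ^ 2 - s2 * K ^ 2) := by linarith
        _ = _ := by ring
    exact le_of_mul_le_mul_right key (by positivity)
  have h5 : 3 * (K : ℝ) ^ N ≤ 16 * ((Finset.univ.filter fun ω : ι → Fin K =>
      (X.filter fun y => ω y ∈ A).card = 1).card : ℝ) := by linarith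
  exact_mod_cast h5

end H599.OW
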