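import Pool.Agent.H599R2.OW.Amp
import Pool.Agent.H564R2.QF.Defs

/-!
# Satisfiability of encoded formulas in conjunctive normal form
-/

namespace H599.OW

open Pool.Agent.H564R2.QF (Fml)

/-- The leaves: functions of approximate degree at most `D` and De Morgan formulas with at most
`D ^ 2` leaves, over the variables `V`. -/
def LeafV (V : Type) [Fintype V] [DecidableEq V] (D : ℕ) : Set ((V → Bool) → Bool) :=
  {g | ADeg D g ∨ ∃ φ : Fml V, φ.size ≤ D ^ 2 ∧ ∀ x, g x = φ.eval x}

/-- The bits which encode a formula with `m` clauses of `c` literals over `2 ^ b` variables: for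
the `j`-th literal of the `i`-th clause the `b` bits of the name of its variable and a last bit
for its sign. -/
abbrev CnfBits (m c b : ℕ) : Type := Fin m × Fin c × Fin (b + 1)

/-- The formula encoded by `z` is satisfiable: some assignment `α` to the variables makes one of
the `c` literals of every clause true. -/
def Sat (m c b : ℕ) (z : CnfBits m c b → Bool) : Prop :=
  ∃ α : (Fin b → Bool) → Bool, ∀ i, ∃ j,
    α (fun t => z (i, j, t.castSucc)) = z (i, j, Fin.last b)

/-- The number of free bits of the hard instances. -/
def free (m : ℕ) : ℕ := (m - 2) / 2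

/-- variable (a number) and sign of the `j`-th literal of the `i`-th clause of the hard instance
given by `x`: for `i < 2 l` with `q = i / 2` it says `z_(q+1) = z_q + x_q`; moreover `z_0 = 0` and
`z_l = 1`. -/
def lit (m : ℕ) (x : Fin (free m) → Bool) (i j : ℕ) : ℕ × Bool :=
  if h : i / 2 < free m then
    if j = 0 then (i / 2 + 1, decide (i % 2 = 0))
    else (i / 2, xor (x ⟨i / 2, h⟩) (decide (i % 2 = 1)))
  else if i = 2 * free m then (0, false) else (free m, true)

/-- The hard instances: encodings of the 2-CNF formulas above. -/
def hard (m c b : ℕ) (x : Fin (free m) → Bool) : CnfBits m c b → Bool := fun p =>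
  if h : p.2.2.1 < b then Nat.testBit (lit m x p.1 p.2.1).1 p.2.2.1 else (lit m x p.1 p.2.1).2

end H599.OW
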