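import Pool.Agent.H599R2.OW.Thr
import Pool.Agent.H599R2.OW.Sat

/-!
# Satisfiability is not a threshold of constant-depth circuits over leaves of small approximate
degree
-/

namespace H599.OW

open Finset H599.QB H599.PH

/-- Explicit form of the lower bound, for leaves with good approximations. -/
theorem thr_parity_app {n k h D w : ℕ} (hh : 1 ≤ h) (hD : 1 ≤ D) (hw : w ≤ 2 ^ h)
    (hn : 12 * 10 ^ 6 * D * h ^ 2 * (4 * (h + k + 3) * (h + 2)) ^ (2 * k) ≤ n)
    {F0 F : Fin w → (Fin n → Bool) → Bool} (happ : ∀ i, App D (F0 i))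
    (hF : F ∈ CircAO (Set.range F0) w k) (a : Fin w → ℝ) (θ : ℝ)
    (hpar : ∀ x, OddPar n x ↔ θ < ∑ i, a i * (if F i x = true then 1 else 0)) : False := by
  classical
  set r := h + k + 3 with hr
  set d := (4 * r * (h + 2)) ^ k * h with hd
  have hd1 : 1 ≤ d := by
    have h1 : 0 < (4 * r * (h + 2)) ^ k := by positivity
    exact Nat.mul_pos h1 (by omega)
  have hN : 1226880 * D * (8 * d ^ 2 + 1) ≤ Fintype.card (Fin n) := by
    rw [Fintype.card_fin]
    refine le_trans ?_ hn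
    have h1 : 8 * d ^ 2 + 1 ≤ 9 * d ^ 2 := by nlinarith
    have h2 : d ^ 2 = h ^ 2 * (4 * r * (h + 2)) ^ (2 * k) := by
      rw [hd, mul_pow, ← pow_mul, mul_comm k 2]; ring
    calc 1226880 * D * (8 * d ^ 2 + 1) ≤ 1226880 * D * (9 * d ^ 2) := Nat.mul_le_mul_left _ h1
      _ = 11041920 * (D * h ^ 2 * (4 * r * (h + 2)) ^ (2 * k)) := by rw [h2]; ring
      _ ≤ 12 * 10 ^ 6 * (D * h ^ 2 * (4 * r * (h + 2)) ^ (2 * k)) :=
          Nat.mul_le_mul_right _ (by norm_num)
      _ = _ := by ring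
  obtain ⟨S₀, hS₀, x, hx⟩ := restrict F0 (t := h) (T := D) (M := 8 * d ^ 2 + 1)
    (Nat.succ_pos _) hD (fun i j _ => happ i j) hN (by
      rw [Fintype.card_fin]
      have h1 : (4 : ℕ) ^ h = 2 ^ h * 2 ^ h := by rw [← mul_pow]; norm_num
      have h2 : 2 ≤ 2 ^ h := by
        calc 2 = 2 ^ 1 := rfl
          _ ≤ _ := Nat.pow_le_pow_right (by norm_num) hh
      rw [h1]
      exact Nat.mul_le_mul h2 hw)
  set c : (S₀ → Bool) → (Fin n → Bool) := fun u =>
    QB.flip ((Finset.univ.filter fun w => u w = true).image Subtype.val) x with hc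
  obtain ⟨q, hq, E, hE, hEc⟩ := circ_real (W := S₀) (t := h) (r := r) hw F0 c
    (fun i => sub_memR (hx i) Subtype.val Subtype.val_injective fun w => w.2) k F hF
  have hcard : Fintype.card S₀ = 2 * (4 * d ^ 2) + 1 := by
    rw [Fintype.card_coe, hS₀]; ring
  rw [hcard] at hEc
  have hE8 : 8 * E.card ≤ 2 ^ (2 * (4 * d ^ 2) + 1) := by
    have h1 : k * w ≤ 2 ^ k * 2 ^ h := Nat.mul_le_mul (Nat.lt_two_pow_self).le hw
    have h2 := hEc.trans (Nat.mul_le_mul_right _ h1)
    have h3 : (2 : ℕ) ^ r = 2 ^ k * 2 ^ h * 8 := by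
      rw [hr, show (8 : ℕ) = 2 ^ 3 from rfl, ← pow_add, ← pow_add]
      congr 1; ring
    rw [h3] at h2
    have h4 : 0 < 2 ^ k * 2 ^ h := by positivity
    refine Nat.le_of_mul_le_mul_left ?_ h4
    calc 2 ^ k * 2 ^ h * (8 * E.card) = E.card * (2 ^ k * 2 ^ h * 8) := by ring
      _ ≤ _ := h2
  set s : (Fin n → Bool) → ℝ := fun y => ∑ i, a i * (if F i y = true then 1 else 0) with hs
  obtain ⟨θ', hθ'⟩ := better_threshold s θ
  set P : (S₀ → Bool) → ℝ := fun u => -(chi Finset.univ x) * (∑ i, a i * q i u - θ') with hP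
  have hPmem : P ∈ Deg S₀ d := by
    refine Submodule.smul_mem _ _ (Submodule.sub_mem _ ?_ (const_mem _ _))
    exact sum_mem' _ _ fun i _ => Submodule.smul_mem _ _ (hq i)
  refine vote (m := 4 * d ^ 2) (D := d) (d := d) hcard (by nlinarith) (by omega) (by omega) hPmem
    E hE8 fun u hu => ?_
  have h1 : ∑ i, a i * q i u = s (c u) := by
    rw [hs]
    refine Finset.sum_congr rfl fun i _ => ?_
    rw [hE u hu i]
    rfl
  have h2 : chi Finset.univ (c u) = chi Finset.univ u * chi Finset.univ x := by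
    rw [hc]
    beta_reduce
    rw [chi_flip, prod_ite_comm]
    simp only [Finset.mem_univ, if_true, Finset.prod_const]
    rw [Finset.card_image_of_injective _ Subtype.val_injective, chi_card u]
  have hxx : chi Finset.univ x * chi Finset.univ x = 1 := by
    rw [chi_mul, symmDiff_self]; simp [chi]
  have h3 : chi Finset.univ u * P u = -(chi Finset.univ (c u)) * (s (c u) - θ') := by
    rw [hP]
    beta_reduce
    rw [h1, h2]; ring
  rw [h3]
  by_cases hodd : OddPar n (c u)
  · have h4 := (hθ' (c u)).1 ((hpar (c u)).1 hodd)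
    have h5 : chi Finset.univ (c u) = -1 := by
      rw [chi_card]
      exact hodd.neg_one_pow
    rw [h5]
    linarith
  · have h4 := (hθ' (c u)).2 (not_lt.1 fun h => hodd ((hpar (c u)).2 h))
    have h5 : chi Finset.univ (c u) = 1 := by
      rw [chi_card]
      exact (Nat.not_odd_iff_even.1 hodd).neg_one_pow
    rw [h5]
    linarith


theorem CircAO.comp {X Y : Type} (f : X → Y) {w k : ℕ} {F0 F : Fin w → Y → Bool}
    (hF : F ∈ CircAO (Set.range F0) w k) :
    (fun i x => F i (f x)) ∈ CircAO (Set.range fun i x => F0 i (f x)) w k := by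
  induction k generalizing F with
  | zero =>
    intro i
    obtain ⟨j, hj⟩ := hF i
    exact ⟨j, funext fun x => congrFun hj (f x)⟩
  | succ k ih =>
    obtain ⟨G, hG, hg⟩ := hF
    refine ⟨fun i x => G i (f x), ih hG, fun i => ?_⟩
    obtain ⟨S, hS⟩ := hg i
    refine ⟨S, ?_⟩
    rcases hS with h | h
    · exact Or.inl fun x => h (f x)
    · exact Or.inr fun x => h (f x)

/-- satisfiability is not a threshold, explicit form -/
theorem sat_thr {m c b k h D w : ℕ} (hc : 2 ≤ c) (hm : 2 ≤ m) (hb : m ≤ 2 ^ b)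
    (hh : 1 ≤ h) (hD : 1 ≤ D) (hw : w ≤ 2 ^ h)
    (hl : 12 * 10 ^ 6 * D * h ^ 2 * (4 * (h + k + 3) * (h + 2)) ^ (2 * k) ≤ free m)
    {F : Fin w → (CnfBits m c b → Bool) → Bool} (hF : F ∈ CircAO (LeafV (CnfBits m c b) D) w k)
    (a : Fin w → ℝ) (θ : ℝ) :
    ∃ x : Fin (free m) → Bool, ¬ (Sat m c b (hard m c b x) ↔
      θ < ∑ i, a i * (if F i (hard m c b x) = true then 1 else 0)) := by
  by_contra hcon
  push Not at hcon
  obtain ⟨F0, hF0, hF⟩ := circAO_leaves hF
  refine thr_parity_app hh hD hw hl (F0 := fun i x => F0 i (hard m c b x))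
    (fun i => (LeafV.app hD (hF0 i)).comp (hard_coord m c b)) (CircAO.comp (hard m c b) hF) a θ
    fun x => ?_
  rw [← hard_sat hc hm hb]
  exact hcon x

end H599.OW
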