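import Pool.Agent.H599R2.OW.SatDefs

/-!
# Tautologies in disjunctive normal form
-/

namespace H599.OW

/-- The disjunction of `m` terms, each a conjunction of `c` literals, encoded by `z` is a
tautology: every assignment `α` makes all `c` literals of one of the terms true. -/
def Taut (m c b : ℕ) (z : CnfBits m c b → Bool) : Prop :=
  ∀ α : (Fin b → Bool) → Bool, ∃ i, ∀ j,
    α (fun t => z (i, j, t.castSucc)) = z (i, j, Fin.last b)

/-- The negation of the formula encoded by `z`: the signs of all literals are changed. -/
def neg (m c b : ℕ) (z : CnfBits m c b → Bool) : CnfBits m c b → Bool := fun p =>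
  if p.2.2.1 < b then z p else !z p

end H599.OW
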