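import Pool.Agent.H599R2.OW.TautDefs
import Pool.Agent.H599R2.OW.SatThr

/-!
# Satisfiability and tautologies against constant-depth circuits, explicit form
-/

namespace H599.OW

open Finset H599.QB H599.PH

theorem taut_neg {m c b : ℕ} (z : CnfBits m c b → Bool) :
    Taut m c b (neg m c b z) ↔ ¬ Sat m c b z := by
  unfold Taut Sat
  push Not
  refine forall_congr' fun α => exists_congr fun i => forall_congr' fun j => ?_
  have e1 : (fun t : Fin b => neg m c b z (i, j, t.castSucc)) = fun t => z (i, j, t.castSucc) := by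
    funext t
    unfold neg
    rw [if_pos (show (i, j, t.castSucc).2.2.1 < b from t.2)]
  have e2 : neg m c b z (i, j, Fin.last b) = !z (i, j, Fin.last b) := by
    unfold neg
    rw [if_neg (show ¬ (i, j, Fin.last b).2.2.1 < b from by simp)]
  rw [e1, e2]
  cases α (fun t => z (i, j, t.castSucc)) <;> cases z (i, j, Fin.last b) <;> simp

theorem neg_coord {l m c b : ℕ} {τ : (Fin l → Bool) → (CnfBits m c b → Bool)} (hτ : CoordV τ) :
    CoordV fun x => neg m c b (τ x) := by
  intro v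
  by_cases hv : v.2.2.1 < b
  · have e : (fun x : Fin l → Bool => sg (neg m c b (τ x) v)) = fun x => sg (τ x v) := by
      funext x; unfold neg; rw [if_pos hv]
    rw [e]; exact hτ v
  · have e : (fun x : Fin l → Bool => sg (neg m c b (τ x) v)) = (-1 : ℝ) • fun x => sg (τ x v) := by
      funext x
      unfold neg
      rw [if_neg hv, sg_not, Pi.smul_apply, smul_eq_mul]; ring
    rw [e]; exact Submodule.smul_mem _ _ (hτ v)

theorem flip_coord {l : ℕ} (S : Finset (Fin l)) : CoordV fun x : Fin l → Bool => QB.flip S x := by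
  intro v
  by_cases hv : v ∈ S
  · have e : (fun x : Fin l → Bool => sg (QB.flip S x v)) = (-1 : ℝ) • fun x => sg (x v) := by
      funext x
      unfold QB.flip
      rw [if_pos hv, sg_not, Pi.smul_apply, smul_eq_mul]; ring
    rw [e]; exact Submodule.smul_mem _ _ (coord_mem _)
  · have e : (fun x : Fin l → Bool => sg (QB.flip S x v)) = fun x => sg (x v) := by
      funext x
      unfold QB.flip
      rw [if_neg hv]
    rw [e]; exact coord_mem _

theorem chi_odd {l : ℕ} (x : Fin l → Bool) : chi Finset.univ x = -1 ↔ OddPar l x := by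
  rw [chi_card]
  exact neg_one_pow_eq_neg_one_iff_odd (by norm_num)

theorem chi_not_odd {l : ℕ} (x : Fin l → Bool) : chi Finset.univ x = 1 ↔ ¬ OddPar l x := by
  rw [chi_card]
  unfold OddPar
  rw [Nat.not_odd_iff_even]
  exact neg_one_pow_eq_one_iff_even (by norm_num)

theorem odd_flip {l : ℕ} (i : Fin l) (x : Fin l → Bool) :
    OddPar l (QB.flip {i} x) ↔ ¬ OddPar l x := by
  rw [← chi_odd, ← chi_not_odd, chi_flip, prod_ite_comm, Finset.prod_singleton,
    if_pos (Finset.mem_univ _)]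
  constructor <;> intro h <;> linarith

open Classical in
theorem avg_of {l k h g D w : ℕ} {V : Type} [Fintype V] [DecidableEq V]
    (hh : 1 ≤ h) (hg1 : 1 ≤ g) (hgh : g ≤ 2 ^ h) (hD : 1 ≤ D) (hw : w ≤ 2 ^ h)
    (hl : 54 * 10 ^ 6 * D * g ^ 2 * h ^ 2 * (8 * (h + k)) ^ (2 * k) ≤ l)
    {τ : (Fin l → Bool) → (V → Bool)} (hτ : CoordV τ) {P : (V → Bool) → Prop}
    (hP : ∀ x, P (τ x) ↔ OddPar l x)
    {F : Fin w → (V → Bool) → Bool} (hF : F ∈ Circ (LeafV V D) w k) (i₀ : Fin w) :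
    ((Finset.univ.filter fun x : Fin l → Bool => F i₀ (τ x) = true ↔ P (τ x)).card : ℝ)
      ≤ (1 / 2 + 1 / g) * 2 ^ l := by
  obtain ⟨F0, hF0, hF⟩ := circ_leaves hF
  have h1 := parity_avg hh hg1 hgh hD hw hl (F0 := fun i x => F0 i (τ x))
    (fun i => (LeafV.app hD (hF0 i)).comp hτ) (Circ.comp τ hF) i₀
  refine le_trans (le_of_eq ?_) h1
  congr 1
  refine congrArg Finset.card (Finset.filter_congr fun x _ => ?_)
  rw [hP]

theorem thr_of {l k h D w : ℕ} {V : Type} [Fintype V] [DecidableEq V]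
    (hh : 1 ≤ h) (hD : 1 ≤ D) (hw : w ≤ 2 ^ h)
    (hl : 12 * 10 ^ 6 * D * h ^ 2 * (4 * (h + k + 3) * (h + 2)) ^ (2 * k) ≤ l)
    {τ : (Fin l → Bool) → (V → Bool)} (hτ : CoordV τ) {P : (V → Bool) → Prop}
    (hP : ∀ x, P (τ x) ↔ OddPar l x)
    {F : Fin w → (V → Bool) → Bool} (hF : F ∈ CircAO (LeafV V D) w k)
    (a : Fin w → ℝ) (θ : ℝ) :
    ∃ x : Fin l → Bool, ¬ (P (τ x) ↔ θ < ∑ i, a i * (if F i (τ x) = true then 1 else 0)) := by
  by_contra hcon
  push Not at hcon
  obtain ⟨F0, hF0, hF⟩ := circAO_leaves hF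
  refine thr_parity_app hh hD hw hl (F0 := fun i x => F0 i (τ x))
    (fun i => (LeafV.app hD (hF0 i)).comp hτ) (CircAO.comp τ hF) a θ fun x => ?_
  rw [← hP]
  exact hcon x

/-- the substitution for tautologies -/
theorem taut_par {m c b : ℕ} (hc : 2 ≤ c) (hm : 2 ≤ m) (hb : m ≤ 2 ^ b) (i : Fin (free m))
    (x : Fin (free m) → Bool) :
    Taut m c b (neg m c b (hard m c b (QB.flip {i} x))) ↔ OddPar (free m) x := by
  rw [taut_neg, hard_sat hc hm hb, odd_flip, not_not]

theorem taut_coord {m c b : ℕ} (i : Fin (free m)) :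
    CoordV fun x => neg m c b (hard m c b (QB.flip {i} x)) := by
  refine neg_coord (τ := fun x => hard m c b (QB.flip {i} x)) fun v => ?_
  exact subst_coordV (flip_coord {i}) (hard_coord m c b v)

theorem flip_flip {l : ℕ} (S : Finset (Fin l)) (x : Fin l → Bool) :
    QB.flip S (QB.flip S x) = x := by
  funext v
  unfold QB.flip
  split_ifs <;> simp

open Classical in
/-- average-case hardness of the tautology problem, explicit form -/
theorem taut_avg {m c b k h g D w : ℕ} (hc : 2 ≤ c) (hm : 2 ≤ m) (hb : m ≤ 2 ^ b)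
    (hh : 1 ≤ h) (hg1 : 1 ≤ g) (hgh : g ≤ 2 ^ h) (hD : 1 ≤ D) (hw : w ≤ 2 ^ h)
    (hl : 54 * 10 ^ 6 * D * g ^ 2 * h ^ 2 * (8 * (h + k)) ^ (2 * k) ≤ free m)
    {F : Fin w → (CnfBits m c b → Bool) → Bool} (hF : F ∈ Circ (LeafV (CnfBits m c b) D) w k)
    (i₀ : Fin w) :
    ((Finset.univ.filter fun x : Fin (free m) → Bool =>
      F i₀ (neg m c b (hard m c b x)) = true ↔
        Taut m c b (neg m c b (hard m c b x))).card : ℝ)
      ≤ (1 / 2 + 1 / g) * 2 ^ free m := by
  have hpos : 0 < free m := by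
    refine lt_of_lt_of_le ?_ hl
    positivity
  set i : Fin (free m) := ⟨0, hpos⟩ with hi
  refine le_trans (le_of_eq ?_) (avg_of hh hg1 hgh hD hw hl (taut_coord (m := m) (c := c) (b := b) i)
    (P := Taut m c b) (taut_par hc hm hb i) hF i₀)
  congr 1
  refine Finset.card_bij' (fun x _ => QB.flip {i} x) (fun x _ => QB.flip {i} x) ?_ ?_ ?_ ?_
  · intro x hx
    rw [Finset.mem_filter] at hx ⊢
    refine ⟨Finset.mem_univ _, ?_⟩
    beta_reduce
    rw [flip_flip]
    exact hx.2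
  · intro x hx
    rw [Finset.mem_filter] at hx ⊢
    exact ⟨Finset.mem_univ _, hx.2⟩
  · intro x _
    exact flip_flip _ x
  · intro x _
    exact flip_flip _ x

/-- the tautology problem is not a threshold, explicit form -/
theorem taut_thr {m c b k h D w : ℕ} (hc : 2 ≤ c) (hm : 2 ≤ m) (hb : m ≤ 2 ^ b)
    (hh : 1 ≤ h) (hD : 1 ≤ D) (hw : w ≤ 2 ^ h)
    (hl : 12 * 10 ^ 6 * D * h ^ 2 * (4 * (h + k + 3) * (h + 2)) ^ (2 * k) ≤ free m)
    {F : Fin w → (CnfBits m c b → Bool) → Bool} (hF : F ∈ CircAO (LeafV (CnfBits m c b) D) w k)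
    (a : Fin w → ℝ) (θ : ℝ) :
    ∃ x : Fin (free m) → Bool, ¬ (Taut m c b (neg m c b (hard m c b x)) ↔
      θ < ∑ i, a i * (if F i (neg m c b (hard m c b x)) = true then 1 else 0)) := by
  have hpos : 0 < free m := by
    refine lt_of_lt_of_le ?_ hl
    positivity
  set i : Fin (free m) := ⟨0, hpos⟩ with hi
  obtain ⟨x, hx⟩ := thr_of hh hD hw hl (taut_coord (m := m) (c := c) (b := b) i)
    (P := Taut m c b) (taut_par hc hm hb i) hF a θ
  exact ⟨QB.flip {i} x, hx⟩

end H599.OW
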