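import Pool.Agent.H599R2.OW.Vote
import Pool.Agent.H599R2.PH.Defs2

/-!
# Parity is not a threshold of constant-depth circuits over leaves of small approximate degree
-/

namespace H599.OW

open Finset H599.QB H599.PH

theorem chi_card {W : Type} [Fintype W] [DecidableEq W] (u : W → Bool) :
    chi Finset.univ u = (-1) ^ (Finset.univ.filter fun w => u w = true).card := by
  unfold chi
  rw [← Finset.prod_const, Finset.prod_filter]
  refine Finset.prod_congr rfl fun i _ => ?_
  unfold sg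
  rfl

theorem better_threshold {Y : Type} [Finite Y] (s : Y → ℝ) (θ : ℝ) :
    ∃ θ' : ℝ, ∀ y, (θ < s y → θ' < s y) ∧ (s y ≤ θ → s y < θ') := by
  have h1 : ∀ᶠ z in nhdsWithin θ (Set.Ioi θ), ∀ y, θ < s y → z < s y := by
    rw [Filter.eventually_all]
    intro y
    by_cases h : θ < s y
    · have h2 : ∀ᶠ z in nhds θ, z < s y := eventually_lt_nhds h
      exact (h2.filter_mono nhdsWithin_le_nhds).mono fun z hz _ => hz
    · exact Filter.Eventually.of_forall fun z hz => absurd hz h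
  have h2 : ∀ᶠ z in nhdsWithin θ (Set.Ioi θ), z ∈ Set.Ioi θ := self_mem_nhdsWithin
  obtain ⟨z, hz1, hz2⟩ := (h1.and h2).exists
  exact ⟨z, fun y => ⟨hz1 y, fun h => lt_of_le_of_lt h hz2⟩⟩

/-- Explicit form of the lower bound. -/
theorem thr_parity {n k h D w : ℕ} (hh : 1 ≤ h) (hD : 1 ≤ D) (hw : w ≤ 2 ^ h)
    (hn : 12 * 10 ^ 6 * D * h ^ 2 * (4 * (h + k + 3) * (h + 2)) ^ (2 * k) ≤ n)
    {F : Fin w → (Fin n → Bool) → Bool} (hF : F ∈ CircAO (Leaf n D) w k) (a : Fin w → ℝ) (θ : ℝ)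
    (hpar : ∀ x, OddPar n x ↔ θ < ∑ i, a i * (if F i x = true then 1 else 0)) : False := by
  classical
  obtain ⟨F0, hF0, hF⟩ := circAO_leaves hF
  set r := h + k + 3 with hr
  set d := (4 * r * (h + 2)) ^ k * h with hd
  have hd1 : 1 ≤ d := by
    have h1 : 0 < (4 * r * (h + 2)) ^ k := by positivity
    exact Nat.mul_pos h1 (by omega)
  have hN : 1226880 * D * (8 * d ^ 2 + 1) ≤ Fintype.card (Fin n) := by
    rw [Fintype.card_fin]
    refine le_trans ?_ hn
    have h1 : 8 * d ^ 2 + 1 ≤ 9 * d ^ 2 := by nlinarith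
    have h2 : d ^ 2 = h ^ 2 * (4 * r * (h + 2)) ^ (2 * k) := by
      rw [hd, mul_pow, ← pow_mul, mul_comm k 2]; ring
    calc 1226880 * D * (8 * d ^ 2 + 1) ≤ 1226880 * D * (9 * d ^ 2) := Nat.mul_le_mul_left _ h1
      _ = 11041920 * (D * h ^ 2 * (4 * r * (h + 2)) ^ (2 * k)) := by rw [h2]; ring
      _ ≤ 12 * 10 ^ 6 * (D * h ^ 2 * (4 * r * (h + 2)) ^ (2 * k)) :=
          Nat.mul_le_mul_right _ (by norm_num)
      _ = _ := by ring
  obtain ⟨S₀, hS₀, x, hx⟩ := restrict F0 (t := h) (T := D) (M := 8 * d ^ 2 + 1)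
    (Nat.succ_pos _) hD (fun i j _ => Leaf.approx hD (hF0 i) j) hN (by
      rw [Fintype.card_fin]
      have h1 : (4 : ℕ) ^ h = 2 ^ h * 2 ^ h := by rw [← mul_pow]; norm_num
      have h2 : 2 ≤ 2 ^ h := by
        calc 2 = 2 ^ 1 := rfl
          _ ≤ _ := Nat.pow_le_pow_right (by norm_num) hh
      rw [h1]
      exact Nat.mul_le_mul h2 hw)
  set c : (S₀ → Bool) → (Fin n → Bool) := fun u =>
    QB.flip ((Finset.univ.filter fun w => u w = true).image Subtype.val) x with hc
  obtain ⟨q, hq, E, hE, hEc⟩ := circ_real (W := S₀) (t := h) (r := r) hw F0 c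
    (fun i => sub_memR (hx i) Subtype.val Subtype.val_injective fun w => w.2) k F hF
  have hcard : Fintype.card S₀ = 2 * (4 * d ^ 2) + 1 := by
    rw [Fintype.card_coe, hS₀]; ring
  rw [hcard] at hEc
  have hE8 : 8 * E.card ≤ 2 ^ (2 * (4 * d ^ 2) + 1) := by
    have h1 : k * w ≤ 2 ^ k * 2 ^ h := Nat.mul_le_mul (Nat.lt_two_pow_self).le hw
    have h2 := hEc.trans (Nat.mul_le_mul_right _ h1)
    have h3 : (2 : ℕ) ^ r = 2 ^ k * 2 ^ h * 8 := by
      rw [hr, show (8 : ℕ) = 2 ^ 3 from rfl, ← pow_add, ← pow_add]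
      congr 1; ring
    rw [h3] at h2
    have h4 : 0 < 2 ^ k * 2 ^ h := by positivity
    refine Nat.le_of_mul_le_mul_left ?_ h4
    calc 2 ^ k * 2 ^ h * (8 * E.card) = E.card * (2 ^ k * 2 ^ h * 8) := by ring
      _ ≤ _ := h2
  set s : (Fin n → Bool) → ℝ := fun y => ∑ i, a i * (if F i y = true then 1 else 0) with hs
  obtain ⟨θ', hθ'⟩ := better_threshold s θ
  set P : (S₀ → Bool) → ℝ := fun u => -(chi Finset.univ x) * (∑ i, a i * q i u - θ') with hP
  have hPmem : P ∈ Deg S₀ d := by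
    refine Submodule.smul_mem _ _ (Submodule.sub_mem _ ?_ (const_mem _ _))
    exact sum_mem' _ _ fun i _ => Submodule.smul_mem _ _ (hq i)
  refine vote (m := 4 * d ^ 2) (D := d) (d := d) hcard (by nlinarith) (by omega) (by omega) hPmem
    E hE8 fun u hu => ?_
  have h1 : ∑ i, a i * q i u = s (c u) := by
    rw [hs]
    refine Finset.sum_congr rfl fun i _ => ?_
    rw [hE u hu i]
    rfl
  have h2 : chi Finset.univ (c u) = chi Finset.univ u * chi Finset.univ x := by
    rw [hc]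
    beta_reduce
    rw [chi_flip, prod_ite_comm]
    simp only [Finset.mem_univ, if_true, Finset.prod_const]
    rw [Finset.card_image_of_injective _ Subtype.val_injective, chi_card u]
  have hxx : chi Finset.univ x * chi Finset.univ x = 1 := by
    rw [chi_mul, symmDiff_self]; simp [chi]
  have h3 : chi Finset.univ u * P u = -(chi Finset.univ (c u)) * (s (c u) - θ') := by
    rw [hP]
    beta_reduce
    rw [h1, h2]; ring
  rw [h3]
  by_cases hodd : OddPar n (c u)
  · have h4 := (hθ' (c u)).1 ((hpar (c u)).1 hodd)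
    have h5 : chi Finset.univ (c u) = -1 := by
      rw [chi_card]
      exact hodd.neg_one_pow
    rw [h5]
    linarith
  · have h4 := (hθ' (c u)).2 (not_lt.1 fun h => hodd ((hpar (c u)).2 h))
    have h5 : chi Finset.univ (c u) = 1 := by
      rw [chi_card]
      exact (Nat.not_odd_iff_even.1 hodd).neg_one_pow
    rw [h5]
    linarith

end H599.OW
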