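import Pool.Agent.H599R2.OW.RApp
import Pool.Agent.H599R2.OW.Main

/-!
# Thresholds of constant-depth circuits do not compute parity
-/

namespace H599.OW

open Finset H599.QB H599.PH

section circ

variable {W : Type} [Fintype W] [DecidableEq W] {X : Type}

theorem bR_cases (b : Bool) : bR b = 0 ∨ bR b = 1 := by cases b <;> simp [bR]

theorem bR_one {b : Bool} : bR b = 1 ↔ b = true := by cases b <;> simp [bR]

/-- one gate -/
theorem gate_real {w d r h : ℕ} (hw : w ≤ 2 ^ h) {F : Fin w → X → Bool} {g : X → Bool}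
    (hg : GateAO F g) (c : (W → Bool) → X) (q : Fin w → (W → Bool) → ℝ)
    (hq : ∀ i, q i ∈ Deg W d) (E : Finset (W → Bool))
    (hE : ∀ u ∉ E, ∀ i, q i u = bR (F i (c u))) :
    ∃ p ∈ Deg W (4 * r * (h + 2) * d), ∃ E' : Finset (W → Bool),
      (∀ u ∉ E, u ∉ E' → p u = bR (g (c u))) ∧ E'.card * 2 ^ r ≤ 2 ^ Fintype.card W := by
  classical
  obtain ⟨S, hS⟩ := hg
  set lit : Fin w × Bool → (W → Bool) → ℝ := fun a u =>
    if a.2 = true then q a.1 u else 1 - q a.1 u with hlit
  have hlit_mem : ∀ a, lit a ∈ Deg W d := by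
    intro a
    rw [hlit]
    rcases a with ⟨i, b⟩
    cases b
    · simp only [Bool.false_eq_true, if_false]
      exact Submodule.sub_mem _ (const_mem 1 _) (hq i)
    · simp only [if_true]
      exact hq i
  have hlit_val : ∀ u ∉ E, ∀ a, lit a u = 0 ∨ lit a u = 1 := by
    intro u hu a
    rw [hlit]
    rcases a with ⟨i, b⟩
    have h1 := bR_cases (F i (c u))
    rw [← hE u hu i] at h1
    cases b
    · simp only [Bool.false_eq_true, if_false]
      rcases h1 with h1 | h1 <;> rw [h1] <;> norm_num
    · simp only [if_true]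
      exact h1
  have hlit_one : ∀ u ∉ E, ∀ a, lit a u = 1 ↔ F a.1 (c u) = a.2 := by
    intro u hu a
    rw [hlit]
    rcases a with ⟨i, b⟩
    have h2 := hE u hu i
    cases b
    · simp only [Bool.false_eq_true, if_false]
      rw [h2]
      cases F i (c u) <;> simp [bR]
    · simp only [if_true]
      rw [h2, bR_one]
  have hcardS : Fintype.card S ≤ 2 ^ (h + 1) := by
    rw [Fintype.card_coe]
    refine (Finset.card_le_univ S).trans ?_
    rw [Fintype.card_prod, Fintype.card_fin, Fintype.card_bool, pow_succ]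
    exact Nat.mul_le_mul_right _ hw
  have hdeg : 4 * r * ((h + 1 + 1) * d) = 4 * r * (h + 2) * d := by ring
  rcases hS with h1 | h1
  · obtain ⟨p, hp, E', hE', hc⟩ := or_real (W := W) hcardS r
      (fun (a : S) => lit (a.1.1, !a.1.2)) fun a => hlit_mem _
    rw [hdeg] at hp
    refine ⟨fun u => 1 - p u, Submodule.sub_mem _ (const_mem 1 _) hp, E', fun u hu hu' => ?_, hc⟩
    obtain ⟨h2, h3⟩ := hE' u hu' fun a => hlit_val u hu _
    beta_reduce
    by_cases hg : g (c u) = true
    · rw [h3, hg]
      · simp [bR]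
      · rintro ⟨a, ha⟩
        rw [hlit_one u hu] at ha
        dsimp only at ha
        have := (h1 (c u)).1 hg a.1 a.2
        rw [this] at ha
        revert ha
        cases a.1.2 <;> simp
    · rw [h2]
      · rw [Bool.not_eq_true] at hg
        rw [hg]; simp [bR]
      · by_contra hcon
        push Not at hcon
        apply hg
        rw [h1 (c u)]
        intro a ha
        have h4 := hcon ⟨a, ha⟩
        rw [Ne, hlit_one u hu] at h4
        dsimp only at h4
        revert h4
        cases F a.1 (c u) <;> cases a.2 <;> simp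
  · obtain ⟨p, hp, E', hE', hc⟩ := or_real (W := W) hcardS r
      (fun (a : S) => lit a.1) fun a => hlit_mem _
    rw [hdeg] at hp
    refine ⟨p, hp, E', fun u hu hu' => ?_, hc⟩
    obtain ⟨h2, h3⟩ := hE' u hu' fun a => hlit_val u hu _
    by_cases hg : g (c u) = true
    · rw [h2, hg]
      · rfl
      · obtain ⟨a, ha, ha'⟩ := (h1 (c u)).1 hg
        exact ⟨⟨a, ha⟩, (hlit_one u hu a).2 ha'⟩
    · rw [h3]
      · rw [Bool.not_eq_true] at hg
        rw [hg]; rfl
      · rintro ⟨a, ha⟩
        apply hg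
        rw [h1 (c u)]
        exact ⟨a.1, a.2, (hlit_one u hu a.1).1 ha⟩

/-- approximation of circuits over the reals -/
theorem circ_real {w t r h : ℕ} (hw : w ≤ 2 ^ h) (F0 : Fin w → X → Bool) (c : (W → Bool) → X)
    (h0 : ∀ i, (fun u => bR (F0 i (c u))) ∈ Deg W t) (k : ℕ) (F : Fin w → X → Bool)
    (hF : F ∈ CircAO (Set.range F0) w k) :
    ∃ q : Fin w → (W → Bool) → ℝ, (∀ i, q i ∈ Deg W ((4 * r * (h + 2)) ^ k * t)) ∧
      ∃ E : Finset (W → Bool), (∀ u ∉ E, ∀ i, q i u = bR (F i (c u))) ∧
        E.card * 2 ^ r ≤ k * w * 2 ^ Fintype.card W := by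
  classical
  induction k generalizing F with
  | zero =>
    refine ⟨fun i u => bR (F i (c u)), fun i => ?_, ∅, fun _ _ _ => rfl, by simp⟩
    obtain ⟨j, hj⟩ := hF i
    beta_reduce
    rw [← hj, pow_zero, one_mul]
    exact h0 j
  | succ k ih =>
    obtain ⟨G, hG, hg⟩ := hF
    obtain ⟨q, hq, E, hE, hEc⟩ := ih G hG
    have h1 := fun i => gate_real (r := r) hw (hg i) c q hq E hE
    choose p hp E' hE' hc using h1
    refine ⟨p, fun i => Deg.mono (le_of_eq (by ring)) (hp i), E ∪ Finset.univ.biUnion E',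
      fun u hu i => ?_, ?_⟩
    · rw [Finset.mem_union, not_or, Finset.mem_biUnion] at hu
      exact hE' i u hu.1 fun h => hu.2 ⟨i, Finset.mem_univ i, h⟩
    · have h2 : (E ∪ Finset.univ.biUnion E').card ≤ E.card + ∑ i, (E' i).card :=
        (Finset.card_union_le _ _).trans (Nat.add_le_add_left Finset.card_biUnion_le _)
      calc _ ≤ (E.card + ∑ i, (E' i).card) * 2 ^ r := Nat.mul_le_mul_right _ h2
        _ = E.card * 2 ^ r + ∑ i, (E' i).card * 2 ^ r := by rw [add_mul, Finset.sum_mul]
        _ ≤ k * w * 2 ^ Fintype.card W + ∑ _i : Fin w, 2 ^ Fintype.card W :=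
            Nat.add_le_add hEc (Finset.sum_le_sum fun i _ => hc i)
        _ = _ := by
            rw [Finset.sum_const, Finset.card_univ, Fintype.card_fin, smul_eq_mul]; ring

end circ

section vote

variable {W : Type} [Fintype W] [DecidableEq W]

theorem low_half {m D : ℕ} (hDm : D ≤ m) (h : 8 * D ^ 2 ≤ 2 * m + 1) :
    2 ^ (2 * m + 1) < 8 * ∑ i ∈ Finset.range (m - D + 1), (2 * m + 1).choose i := by
  have h1 := half_count h
  have h2 : ∑ i ∈ Finset.range (2 * m + 1 + 1), (2 * m + 1).choose i = 2 ^ (2 * m + 1) :=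
    Nat.sum_range_choose _
  have h3 : 2 * m + 1 + 1 = (m + D + 1) + (m - D + 1) := by omega
  rw [h3, Finset.sum_range_add] at h2
  have h4 : ∑ x ∈ Finset.range (m - D + 1), (2 * m + 1).choose (m + D + 1 + x)
      = ∑ x ∈ Finset.range (m - D + 1), (2 * m + 1).choose x := by
    rw [← Finset.sum_range_reflect (fun x => (2 * m + 1).choose x)]
    refine Finset.sum_congr rfl fun x hx => ?_
    have hx' := Finset.mem_range.1 hx
    rw [← Nat.choose_symm (by omega)]
    congr 1
    omega
  rw [h4] at h2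
  have h5 : (2 : ℕ) ^ (2 * m + 1) = 2 * 4 ^ m := by rw [pow_succ, pow_mul]; norm_num; ring
  rw [h5] at h2 ⊢
  omega

theorem orth {d : ℕ} (hd : d < Fintype.card W) {f : (W → Bool) → ℝ} (hf : f ∈ Deg W d) :
    ∑ u, chi Finset.univ u * f u = 0 := by
  obtain ⟨c, hc, hc'⟩ := coeff_of_mem hf
  have h1 : ∀ u : W → Bool, chi Finset.univ u * f u
      = ∑ S, c S * chi (symmDiff Finset.univ S) u := by
    intro u
    rw [hc', Finset.mul_sum]
    refine Finset.sum_congr rfl fun S _ => ?_
    rw [← chi_mul]; ring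
  rw [Finset.sum_congr rfl fun u _ => h1 u, Finset.sum_comm]
  refine Finset.sum_eq_zero fun S _ => ?_
  rw [← Finset.mul_sum, sum_chi]
  split_ifs with h
  · have h2 : S = Finset.univ := by
      have := symmDiff_eq_bot.1 h
      exact this.symm
    rw [hc S (by rw [h2, Finset.card_univ]; exact hd), zero_mul]
  · rw [mul_zero]

/-- The argument of Aspnes, Beigel, Furst and Rudich: a low-degree polynomial which has the sign
of parity outside a small set does not exist. -/
theorem vote {m D d : ℕ} (hW : Fintype.card W = 2 * m + 1) (hDm : D ≤ m)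
    (hD : 8 * D ^ 2 ≤ 2 * m + 1) (hd : d ≤ 2 * D) {P : (W → Bool) → ℝ} (hP : P ∈ Deg W d)
    (E : Finset (W → Bool)) (hE : 8 * E.card ≤ 2 ^ (2 * m + 1))
    (hs : ∀ u ∉ E, 0 < chi Finset.univ u * P u) : False := by
  classical
  set 𝒮 : Finset (Finset W) := Finset.univ.filter fun S => S.card ≤ m - D with h𝒮
  have hcard : 𝒮.card = ∑ i ∈ Finset.range (m - D + 1), (2 * m + 1).choose i := by
    have h2 : 𝒮 = (Finset.range (m - D + 1)).biUnion
        fun i => Finset.powersetCard i Finset.univ := by
      ext S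
      simp only [h𝒮, Finset.mem_filter, Finset.mem_univ, true_and, Finset.mem_biUnion,
        Finset.mem_range, Finset.mem_powersetCard, Finset.subset_univ]
      constructor
      · intro h; exact ⟨S.card, by omega, rfl⟩
      · rintro ⟨i, hi, h⟩; omega
    rw [h2, Finset.card_biUnion]
    · refine Finset.sum_congr rfl fun i _ => ?_
      rw [Finset.card_powersetCard, Finset.card_univ, hW]
    · intro i _ j _ hij
      rw [Function.onFun, Finset.disjoint_left]
      intro S hS hS'
      exact hij ((Finset.mem_powersetCard.1 hS).2.symm.trans (Finset.mem_powersetCard.1 hS').2)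
  have hlt : E.card < 𝒮.card := by
    have := low_half hDm hD
    rw [← hcard] at this
    omega
  let Φ : (𝒮 → ℝ) →ₗ[ℝ] (E → ℝ) :=
    { toFun := fun c u => ∑ S : 𝒮, c S * chi S.1 u.1
      map_add' := fun c e => by
        funext u
        simp only [Pi.add_apply, add_mul, Finset.sum_add_distrib]
      map_smul' := fun a c => by
        funext u
        simp only [Pi.smul_apply, smul_eq_mul, RingHom.id_apply, Finset.mul_sum, mul_assoc] }
  have hker : LinearMap.ker Φ ≠ ⊥ := by
    apply LinearMap.ker_ne_bot_of_finrank_lt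
    rw [Module.finrank_pi, Module.finrank_pi, Fintype.card_coe, Fintype.card_coe]
    exact hlt
  obtain ⟨c, hcker, hc0⟩ := (Submodule.ne_bot_iff _).1 hker
  set c' : Finset W → ℝ := fun S => if h : S ∈ 𝒮 then c ⟨S, h⟩ else 0 with hc'
  set R : (W → Bool) → ℝ := fun u => ∑ S, c' S * chi S u with hR
  have hR1 : ∀ u, R u = ∑ S : 𝒮, c S * chi S.1 u := by
    intro u
    rw [hR]
    beta_reduce
    rw [← Finset.sum_subset (Finset.subset_univ 𝒮) (fun S _ hS => by
      rw [hc']; simp only [hS, dif_neg, not_false_eq_true, zero_mul]), ← Finset.sum_coe_sort 𝒮]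
    refine Finset.sum_congr rfl fun S _ => ?_
    rw [hc']
    simp only [S.2, dif_pos, Subtype.coe_eta]
  have hR0 : ∀ u ∈ E, R u = 0 := by
    intro u hu
    have h1 := congrFun (LinearMap.mem_ker.1 hcker) ⟨u, hu⟩
    rw [hR1]
    exact h1
  have hRmem : R ∈ Deg W (m - D) := by
    have e : R = fun u => ∑ S : 𝒮, c S * chi S.1 u := funext hR1
    rw [e]
    refine sum_mem' _ _ fun S _ => Submodule.smul_mem _ _ (chi_mem ?_)
    exact (Finset.mem_filter.1 S.2).2
  have hRne : ∃ u, R u ≠ 0 := by
    by_contra hcon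
    push Not at hcon
    have h1 := parseval (c := c') (f := R) fun _ => rfl
    rw [Finset.sum_eq_zero fun u _ => by rw [hcon u]; norm_num] at h1
    have h2 : ∑ S, c' S ^ 2 = 0 := by
      have : (0 : ℝ) < 2 ^ Fintype.card W := by positivity
      rcases mul_eq_zero.1 h1.symm with h | h
      · exact absurd h this.ne'
      · exact h
    apply hc0
    funext S
    have h3 := (Finset.sum_eq_zero_iff_of_nonneg fun S _ => sq_nonneg (c' S)).1 h2 S.1
      (Finset.mem_univ _)
    have h4 : c' S.1 = 0 := by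
      rwa [sq_eq_zero_iff] at h3
    rw [hc'] at h4
    simp only [S.2, dif_pos, Subtype.coe_eta] at h4
    exact h4
  have hprod : (fun u => P u * (R u * R u)) ∈ Deg W (d + ((m - D) + (m - D))) :=
    mul_mem hP (mul_mem hRmem hRmem)
  have hsum := orth (by rw [hW]; omega) hprod
  have hnn : ∀ u ∈ (Finset.univ : Finset (W → Bool)),
      0 ≤ chi Finset.univ u * (P u * (R u * R u)) := by
    intro u _
    by_cases hu : u ∈ E
    · rw [hR0 u hu]; simp
    · have := hs u hu
      have h2 : chi Finset.univ u * (P u * (R u * R u))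
          = (chi Finset.univ u * P u) * (R u * R u) := by ring
      rw [h2]
      exact mul_nonneg this.le (mul_self_nonneg _)
  obtain ⟨u, hu⟩ := hRne
  have h1 := (Finset.sum_eq_zero_iff_of_nonneg hnn).1 hsum u (Finset.mem_univ _)
  have huE : u ∉ E := fun h => hu (hR0 u h)
  have h2 := hs u huE
  have h3 : chi Finset.univ u * (P u * (R u * R u))
      = (chi Finset.univ u * P u) * (R u * R u) := by ring
  rw [h3] at h1
  have h4 : 0 < R u * R u := mul_self_pos.2 hu
  have := mul_pos h2 h4
  linarith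

end vote

end H599.OW
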